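import Mathlib

/-!
# The square-root clause of the Stark-Tate conjecture over real quadratic fields

Statements of the parts (project SQ).  Each part is a `Prop` named `S_X`; it is proved in a file of
its own by a theorem `s_X : S_X`.  Paper proofs are in the docstrings.
-/

set_option autoImplicit false

namespace Pool.Agent.L7h62.SQ

open Module

/-- `x` is a unit of the ring of integers of the field `H`. -/
def IsUnt {H : Type} [Field H] (x : H) : Prop :=
  x ≠ 0 ∧ IsIntegral ℤ x ∧ IsIntegral ℤ x⁻¹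

/-- `g` is a complex embedding of `H` whose restriction to `K` is the real embedding `φ`. -/
def Over {K H : Type} [Field K] [Field H] [Algebra K H] (φ : K →+* ℝ) (g : H →+* ℂ) : Prop :=
  ∀ x : K, g (algebraMap K H x) = ((φ x : ℝ) : ℂ)

/-- `c` is the complex conjugation above `φ`: it induces complex conjugation for every complex
embedding of `H` whose restriction to `K` is `φ`. -/
def IsConj {K H : Type} [Field K] [Field H] [Algebra K H] (φ : K →+* ℝ) (c : H ≃ₐ[K] H) : Prop :=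
  ∀ g : H →+* ℂ, Over φ g → ∀ x, g (c x) = (starRingEnd ℂ) (g x)

/-- The archimedean conditions of Stark's conjecture: `u` is a unit of `H`, positive at all
embeddings above `φ₁` (these are `e ∘ σ` for `σ` in the Galois group) and of absolute value one at
all embeddings above `φ₂`. -/
def StarkLike {K H : Type} [Field K] [Field H] [Algebra K H] (φ₂ : K →+* ℝ) (e : H →+* ℝ) (u : H) :
    Prop :=
  IsUnt u ∧ (∀ σ : H ≃ₐ[K] H, 0 < e (σ u)) ∧ ∀ g : H →+* ℂ, Over φ₂ g → ‖g u‖ = 1

/-- LAT.  A commutative group `A` with an injective homomorphism to `ℝ^ι` with discrete image has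
at most `2 ^ |ι|` classes modulo squares.

Proof: the image `L` (a `Submodule ℤ (ι → ℝ)`, isomorphic to `Additive A`) is discrete, hence free
of finite rank `r` (`ZLattice.module_finite`, `ZLattice.module_free`), and
`Real.finrank_eq_int_finrank_of_discrete` gives `r ≤ |ι|`; `|L/2L| = 2^r` (`ModN.natCard_eq`). -/
def S_LAT : Prop :=
  ∀ (A : Type) [CommGroup A] (ι : Type) [Fintype ι] (l : A → ι → ℝ)
    (_ : ∀ a b i, l (a * b) i = l a i + l b i)
    (_ : ∀ a, (∀ i, l a i = 0) → a = 1)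
    (_ : ∀ B : ℝ, {a : A | ∀ i, |l a i| ≤ B}.Finite),
    Finite (A ⧸ (powMonoidHom 2 : A →* A).range) ∧
      Nat.card (A ⧸ (powMonoidHom 2 : A →* A).range) ≤ 2 ^ Fintype.card ι

/-- IDX.  `U` is a commutative group, `s : U → {±1}^ι` a surjective homomorphism with kernel `P`,
`z ∈ U` with `s z = -1`, and `1, z` are the only elements `x` of `U` with `x ^ 2 = 1`; `P` has at most
`2 ^ |ι|` classes modulo squares.  Then for `u, v ∈ P` one of `u, v, u v` is the square of an
element of `U`.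

Proof: let `Q = {x ^ 2 : x ∈ U} ⊆ P`.  Consider `f : U → P/P²`, `x ↦ x²`.  Its kernel is `P ∪ zP`
(if `x² = p²` then `x = p` or `x = z p`), so its image has `[U : P ∪ zP] = 2^|ι| / 2` elements
(`[U : P] = 2^|ι|` because `s` is onto).  The image is `Q/P²`, so `[P : Q] ≤ 2`, that is, `u`, `v` or
`u v` lies in `Q`. -/
def S_IDX : Prop :=
  ∀ (U : Type) [CommGroup U] (ι : Type) [Fintype ι] [Nonempty ι] (s : U →* (ι → ℤˣ))
    (_ : Function.Surjective s) (z : U) (_ : ∀ i, s z i = -1)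
    (_ : ∀ x : U, x ^ 2 = 1 → x = 1 ∨ x = z)
    (_ : z ^ 2 = 1)
    (_ : Finite (s.ker ⧸ (powMonoidHom 2 : s.ker →* s.ker).range))
    (_ : Nat.card (s.ker ⧸ (powMonoidHom 2 : s.ker →* s.ker).range) ≤ 2 ^ Fintype.card ι)
    (u v : U) (_ : s u = 1) (_ : s v = 1),
    (∃ x, x ^ 2 = u) ∨ (∃ x, x ^ 2 = v) ∨ ∃ x, x ^ 2 = u * v

/-- GRI.  In a finite commutative group of 2-power order a signature vector with an odd number of
minus signs generates: if `f : G → 𝔽₂` has sum `1` there is `h : G → 𝔽₂` with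
`∑_σ h σ * f (g σ) = [g = 1]`.

Proof: in the commutative ring `𝔽₂[G]` the element `x = ∑ f(g) g` satisfies
`x ^ (2^k) = ∑ f(g) g^(2^k) = ∑ f(g) = 1` if `g^(2^k) = 1` for all `g` (characteristic two), so `x` is
invertible; `h` is the coefficient vector of `x⁻¹` read at inverses. -/
def S_GRI : Prop :=
  ∀ (G : Type) [CommGroup G] [Fintype G] [DecidableEq G] (k : ℕ) (_ : Fintype.card G = 2 ^ k)
    (f : G → ZMod 2) (_ : ∑ g, f g = 1),
    ∃ h : G → ZMod 2, ∀ g : G, ∑ σ, h σ * f (g * σ) = if g = 1 then 1 else 0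

/-- EMB.  Setting: `K` quadratic with two different real embeddings `φ₁, φ₂`, `H/K` finite Galois,
`e : H → ℝ` extends `φ₁`.
(a) Every complex embedding of `H` is `e ∘ σ` for some `σ ∈ Gal(H/K)` or lies above `φ₂`.
(b) `H` has a complex embedding above `φ₂`.
(c) If `c` is the complex conjugation above `φ₂` then `c ∘ c = 1`, and if `H/K` is abelian and `u ∈ H`
has absolute value one above `φ₂` then `c u = u⁻¹`; conversely `c u = u⁻¹` implies `‖g u‖ = 1` for
`g` above `φ₂`.

Proof: `K` has exactly two complex embeddings (`finrank ℚ K = 2`,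
`NumberField.Embeddings.card`), so the restriction of `g` to `K` is `φ₁` or `φ₂`.  Over a fixed
embedding of `K` the Galois group is transitive (`AlgHom` of normal extensions;
`IsAlgClosed.lift` for (b)).  For (c): `g (c u) = conj (g u)` and `g` is injective. -/
def S_EMB : Prop :=
  ∀ (K H : Type) [Field K] [NumberField K] [Field H] [NumberField H] [Algebra K H] [IsGalois K H]
    (_ : finrank ℚ K = 2) (φ₁ φ₂ : K →+* ℝ) (_ : φ₁ ≠ φ₂)
    (e : H →+* ℝ) (_ : ∀ x, e (algebraMap K H x) = φ₁ x),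
    (∀ g : H →+* ℂ, (∃ σ : H ≃ₐ[K] H, ∀ x, g x = ((e (σ x) : ℝ) : ℂ)) ∨ Over φ₂ g) ∧
    (∃ g : H →+* ℂ, Over φ₂ g) ∧
    ∀ c : H ≃ₐ[K] H, IsConj φ₂ c → (∀ x, c (c x) = x) ∧
      ∀ u : H, u ≠ 0 → ((∀ g : H →+* ℂ, Over φ₂ g → ‖g u‖ = 1) ↔ c u = u⁻¹)

/-- ABL (the abelian condition).  `H/K` is finite abelian of characteristic zero, `c` and `σ₀` are
elements of the Galois group, every element is `ρ ^ 2 * c ^ i * σ₀ ^ j`; `u ∈ H` satisfies `c u = u⁻¹`
and for every `σ` there is `a ∈ H` with `a ^ 2 * u = σ u` and `c a = a⁻¹`.  Then for every field `M`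
generated over `H` by a square root `α` of `u` the extension `M/K` is Galois and abelian.

Proof.  Normal: a `K`-embedding `τ` of `M` in an algebraic closure restricts to some `σ` on `H`, and
`τ(α) ^ 2 = σ u = (a α) ^ 2`, so `τ(α) = ± a α ∈ M`.  Abelian: write `σ ~ ρ` if
`σ(b) a = ρ(a) b` whenever `a ^ 2 u = σ u`, `b ^ 2 u = ρ u` (this does not depend on the choice of
the signs of `a`, `b`).  It is reflexive, symmetric, and for fixed `ρ` the set of `σ ~ ρ` is closed under
products: take `σ₁(a₂) a₁` for `σ₁ σ₂`.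
`c ~ ρ`: `a = u⁻¹`, `b` with `c b = b⁻¹` and `b ^ 2 = ρ(u) / u`.
`τ ^ 2 ~ ρ` for all `τ`: `τ(b) a = ± ρ(a) b` because the squares agree; for `τ ^ 2` take `τ(a) a`; the
sign occurs twice.
Hence `σ ~ σ₀` for all `σ`, then `σ₀ ~ ρ` for all `ρ`, then `σ ~ ρ` for all `σ, ρ`.
Two automorphisms `τ₁, τ₂` of `M/K` with restrictions `σ, ρ` satisfy `τ₁ α = a α`, `τ₂ α = b α`,
`τ₁ τ₂ α = σ(b) a α`, `τ₂ τ₁ α = ρ(a) b α`: they commute. -/
def S_ABL : Prop :=
  ∀ (K H : Type) [Field K] [CharZero K] [Field H] [Algebra K H] [IsAbelianGalois K H]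
    [FiniteDimensional K H] (c σ₀ : H ≃ₐ[K] H)
    (_ : ∀ σ : H ≃ₐ[K] H, ∃ (ρ : H ≃ₐ[K] H) (i j : ℕ), σ = ρ ^ 2 * c ^ i * σ₀ ^ j)
    (u : H) (_ : u ≠ 0) (_ : c u = u⁻¹)
    (_ : ∀ σ : H ≃ₐ[K] H, ∃ a : H, a ^ 2 * u = σ u ∧ c a = a⁻¹)
    (M : Type) [Field M] [Algebra H M] [Algebra K M] [IsScalarTower K H M]
    (α : M) (_ : α ^ 2 = algebraMap H M u)
    (_ : IntermediateField.adjoin H {α} = ⊤), IsAbelianGalois K M

end Pool.Agent.L7h62.SQ
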