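import Pool.Agent.L7h62.SQ.Main3
import Pool.Agent.L7h60.SQ.Abl
import Pool.Agent.L7h61.SQ.Emb
import Pool.Agent.L7h79.SQ.Lat
import Pool.Agent.L7h16.SQ.Gri
import Pool.Agent.L7h26.SQ.Idx

/-!
# Project SQ: the theorem, assembled
-/

set_option autoImplicit false

namespace Pool.Agent.L7h62.SQ

open Module

theorem mainAll (K H : Type) [Field K] [NumberField K] [Field H] [NumberField H] [Algebra K H]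
    [IsAbelianGalois K H] (hK : finrank ℚ K = 2) (φ₁ φ₂ : K →+* ℝ) (hφ : φ₁ ≠ φ₂)
    (e : H →+* ℝ) (he : ∀ x, e (algebraMap K H x) = φ₁ x)
    (c : H ≃ₐ[K] H) (hc : IsConj φ₂ c) (hS : SignCondition φ₁ e c) :
    (∀ u v : H, StarkLike (K := K) φ₂ e u → StarkLike (K := K) φ₂ e v →
      ∃ x : H, IsUnt x ∧ c x = x⁻¹ ∧ (x ^ 2 = u ∨ x ^ 2 = v ∨ x ^ 2 = u * v)) ∧
    (∀ u : H, StarkLike (K := K) φ₂ e u → ∀ σ : H ≃ₐ[K] H, ∃ a : H, IsUnt a ∧ a ^ 2 * u = σ u) ∧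
    ((∃ σ₀ : H ≃ₐ[K] H, ∀ σ : H ≃ₐ[K] H, ∃ (ρ : H ≃ₐ[K] H) (i j : ℕ),
        σ = ρ ^ 2 * c ^ i * σ₀ ^ j) →
      (∀ u : H, StarkLike (K := K) φ₂ e u → RootAbelian K u) ∧
      ∀ (Z : (H ≃ₐ[K] H) → ℝ) (ε : (H ≃ₐ[K] H) → H), StarkUnits φ₂ e Z ε →
        ∀ σ, RootAbelian K (ε σ)) :=
  main Pool.Agent.L7h79.SQ.s_LAT Pool.Agent.L7h26.SQ.s_IDX Pool.Agent.L7h16.SQ.s_GRI
    Pool.Agent.L7h61.SQ.s_EMB Pool.Agent.L7h60.SQ.s_ABL K H hK φ₁ φ₂ hφ e he c hc hS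

end Pool.Agent.L7h62.SQ
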