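import Pool.Agent.L7h62.SQ.Main5
import Pool.Agent.L7h60.SQ.Abl
import Pool.Agent.L7h61.SQ.Emb
import Pool.Agent.L7h61.SQ.Pos
import Pool.Agent.L7h79.SQ.Lat
import Pool.Agent.L7h16.SQ.Gri
import Pool.Agent.L7h26.SQ.Idx
import Pool.Agent.L7h89.SQ.Sel
import Pool.Agent.L7h47.SQ.Val
import Pool.Agent.L7h99.SQ.Two
import Pool.Agent.L7h8.SQ.Grp
import Pool.Agent.L7h53.SQ.Ind
import Pool.Agent.L7h69.SQ.Step

/-!
# Project SQ: the final theorem, assembled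
-/

set_option autoImplicit false

namespace Pool.Agent.L7h62.SQ

open Module NumberField IsDedekindDomain

theorem val' : S_VAL := Pool.Agent.L7h47.SQ.s_VAL
theorem tow' : S_TOW := Pool.Agent.L7h61.SQ.s_TOW val'
theorem pos' : S_POS := Pool.Agent.L7h61.SQ.s_POS
theorem step' : S_STEP := Pool.Agent.L7h69.SQ.s_STEP val' pos'
theorem ind' : S_IND := Pool.Agent.L7h53.SQ.s_IND val' tow' pos' step'

theorem mainAll3 (K H : Type) [Field K] [NumberField K] [Field H] [NumberField H] [Algebra K H]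
    [IsAbelianGalois K H] (hK : finrank ℚ K = 2) (φ₁ φ₂ : K →+* ℝ) (hφ : φ₁ ≠ φ₂)
    (e : H →+* ℝ) (he : ∀ x, e (algebraMap K H x) = φ₁ x)
    (c : H ≃ₐ[K] H) (hc : IsConj φ₂ c)
    (h : (Odd (Nat.card (Pool.Agent.Y682.NCl K)) ∧ (∃ k : ℕ, finrank K H = 2 ^ k) ∧
        ∃ p : HeightOneSpectrum (𝓞 K), OnePrime c p) ∨
      (CyclicMod c ∧ Odd (Nat.card (Pool.Agent.Y682.NCl (Plus c))) ∧ StableRam c) ∨
      (CyclicMod c ∧ SignCondition φ₁ e c)) :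
    (∀ u : H, StarkLike (K := K) φ₂ e u → RootAbelian K u ∧
      ∀ σ : H ≃ₐ[K] H, ∃ a : H, IsUnt a ∧ a ^ 2 * u = σ u) ∧
    ∀ (Z : (H ≃ₐ[K] H) → ℝ) (ε : (H ≃ₐ[K] H) → H), StarkUnits φ₂ e Z ε →
      ∀ σ, RootAbelian K (ε σ) :=
  main3 Pool.Agent.L7h79.SQ.s_LAT Pool.Agent.L7h26.SQ.s_IDX Pool.Agent.L7h16.SQ.s_GRI
    Pool.Agent.L7h61.SQ.s_EMB Pool.Agent.L7h89.SQ.s_SEL Pool.Agent.L7h60.SQ.s_ABL val' tow' ind'
    Pool.Agent.L7h8.SQ.s_GRP (Pool.Agent.L7h99.SQ.s_TWO val') K H hK φ₁ φ₂ hφ e he c hc h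

end Pool.Agent.L7h62.SQ
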