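import Pool.Agent.L7h62.SQ.Main6
import Pool.Agent.L7h62.SQ.All2
import Pool.Agent.L7h60.SQ.Mod
import Pool.Agent.L7h96.SQ.Gen

/-!
# Project SQ: the final theorem with the index formula, assembled
-/

set_option autoImplicit false

namespace Pool.Agent.L7h62.SQ

open Module NumberField IsDedekindDomain

theorem mainAll6 (K H : Type) [Field K] [NumberField K] [Field H] [NumberField H] [Algebra K H]
    [IsAbelianGalois K H] (hK : finrank ℚ K = 2) (φ₁ φ₂ : K →+* ℝ) (hφ : φ₁ ≠ φ₂)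
    (e : H →+* ℝ) (he : ∀ x, e (algebraMap K H x) = φ₁ x)
    (c : H ≃ₐ[K] H) (hc : IsConj φ₂ c) :
    (∀ u : H, StarkLike (K := K) φ₂ e u → (Cases φ₁ e c ∨ CyclicIndex c u) → RootAbelian K u ∧
      ∀ σ : H ≃ₐ[K] H, ∃ a : H, IsUnt a ∧ a ^ 2 * u = σ u) ∧
    ∀ (Z : (H ≃ₐ[K] H) → ℝ) (ε : (H ≃ₐ[K] H) → H), StarkUnits φ₂ e Z ε →
      (Cases φ₁ e c ∨ CyclicIndex c (ε 1)) → ∀ σ, RootAbelian K (ε σ) :=
  main6 Pool.Agent.L7h79.SQ.s_LAT Pool.Agent.L7h26.SQ.s_IDX Pool.Agent.L7h16.SQ.s_GRI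
    Pool.Agent.L7h61.SQ.s_EMB Pool.Agent.L7h89.SQ.s_SEL Pool.Agent.L7h60.SQ.s_ABL val' tow' ind'
    Pool.Agent.L7h8.SQ.s_GRP (Pool.Agent.L7h99.SQ.s_TWO val') Pool.Agent.L7h60.SQ.s_MOD
    Pool.Agent.L7h96.SQ.s_GEN K H hK φ₁ φ₂ hφ e he c hc

end Pool.Agent.L7h62.SQ
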