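import Pool.Agent.Y682.NCl

/-!
# Project SQ, third stage: cyclic 2-groups and the index formula

Statements.
-/

set_option autoImplicit false

namespace Pool.Agent.L7h62.SQ

open Module NumberField IsDedekindDomain
open Pool.Agent.TeamU (Over Unr)

/-- MOD.  `X` is a finitely generated abelian group without 2-torsion, `s` an automorphism with
`s ^ m = -1`, `m = 2 ^ k`, and `X/2X` has at most `2 ^ m` elements; `u ∈ X` and the subgroup generated by
the `s ^ i u` has index divisible by `2 ^ (m - 1)` (index `0` means infinite).  Then `s u - u` is in `2X`.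

Proof.  Let `T = s - 1`.  In `ℤ[x]`, `(x - 1) ^ m = x ^ m + 1 + 2 g(x)` with `g(1) = -1`, so
`g = -1 + (x - 1) q`, and on `X`: `T ^ m = 2 g(s) = -2 + 2 T q(s)`.  So `T^m X ⊆ 2X`, and
`2 = 2 T q(s) - T ^ m` gives `2X ⊆ T^j X` for `j = 1, ..., m` by induction (if `2X ⊆ T^j X` then
`2 T q X ⊆ T^(j+1) X`).  So `2X = T^m X`.  `T` is injective (`T x = 0` gives `x = s^m x = -x`), so
`|X/2X| = |X/TX| ^ m` and `|X/TX| ≤ 2`.  If `u ∈ T^(m-1) X` then `T u ∈ T^m X = 2X`.  Otherwise
`|X/TX| = 2` and `u ∈ T^j X`, `u ∉ T^(j+1) X` with `j < m - 1`; let `R u` be the subgroup generated by the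
`s ^ i u` (stable under `s`, so under `T`; contained in `T^j X`).  As `[T^j X : T^(j+1) X] = 2`,
`T^j X = R u + T^(j+1) X`, so `T` is surjective on `M = T^j X / R u`, so `2M = T^m M = M`; `M` is finitely
generated, so it is finite of odd order.  But `[X : R u] = 2^j |M|`, `j < m - 1`: not divisible by
`2 ^ (m - 1)`, and not zero. -/
def S_MOD : Prop :=
  ∀ (X : Type) [AddCommGroup X] [Module.Finite ℤ X] (_ : ∀ x : X, x + x = 0 → x = 0)
    (s : X →+ X) (k : ℕ) (_ : ∀ x, (s^[2 ^ k]) x = -x)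
    (_ : Nat.card (X ⧸ (AddMonoidHom.id X + AddMonoidHom.id X).range) ≤ 2 ^ (2 ^ k))
    (u : X) (_ : 2 ^ (2 ^ k - 1) ∣ (AddSubgroup.closure (Set.range fun i : ℕ => (s^[i]) u)).index),
    ∃ y : X, s u - u = y + y

/-- GEN.  `H/F` quadratic, `c` the nontrivial automorphism; every unit `u` of `H` with `u c(u) = 1` is
`v / c(v)` for a unit `v`, and some prime `P` of `H` is ramified over `F`.  Then `2 h(F)` divides `h(H)`.

Proof.  The map `Cl(F) → Cl(H)` is injective: if `𝔞 O_H = (x)` then `x / c(x)` is a unit of norm one,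
`= v / c(v)`, so `y = x / v ∈ F` and `𝔞 O_H = y O_H`, `𝔞 = (y)` (compare valuations).  `P` is the only
prime over `𝔭 = P ∩ F` and `𝔭 O_H = P ^ 2`, `c(P) = P`.  The class of `P` is not in the image of `Cl(F)`:
if `P 𝔞 = (x)` with a fractional ideal `𝔞` of `F` then again `x = y v` with `y ∈ F`, and the valuation
of `y` at `P` is even (`e = 2`), while that of `P 𝔞` is odd.  Its square is in the image.  So `Cl(H)` has
a subgroup of order `2 h(F)`.  (The other way: count by hand with `ClassGroup.mk0` and `Ideal.map`.) -/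
def S_GEN : Prop :=
  ∀ (F H : Type) [Field F] [NumberField F] [Field H] [NumberField H] [Algebra F H],
    finrank F H = 2 → ∀ c : H ≃ₐ[F] H, c ≠ 1 →
    (∀ u : (𝓞 H)ˣ, ((u : 𝓞 H) : H) * c ((u : 𝓞 H) : H) = 1 →
      ∃ v : (𝓞 H)ˣ, ((u : 𝓞 H) : H) = ((v : 𝓞 H) : H) / c ((v : 𝓞 H) : H)) →
    (∃ P : HeightOneSpectrum (𝓞 H), ¬ Unr F P) →
    2 * classNumber F ∣ classNumber H

end Pool.Agent.L7h62.SQ
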