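import Pool.Agent.L7h62.SQ.Main5
import Pool.Agent.L7h62.SQ.Stm3

/-!
# Project SQ, third stage: the lattice of the units inverted by `c`
-/

set_option autoImplicit false

namespace Pool.Agent.L7h62.SQ

open Module NumberField IsDedekindDomain

/-- A commutative group with discrete injective image in `ℝ^ι` is finitely generated. -/
theorem lat_fin (A : Type) [CommGroup A] (ι : Type) [Fintype ι] (l : A → ι → ℝ)
    (hadd : ∀ a b i, l (a * b) i = l a i + l b i)
    (hinj : ∀ a, (∀ i, l a i = 0) → a = 1)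
    (hfin : ∀ B : ℝ, {a : A | ∀ i, |l a i| ≤ B}.Finite) : Module.Finite ℤ (Additive A) := by
  let f : Additive A →+ (ι → ℝ) :=
    { toFun := fun a => l a.toMul
      map_zero' := by
        have h : ∀ i, l 1 i = 0 := by
          intro i
          have := hadd 1 1 i
          rw [mul_one] at this
          linarith
        funext i
        exact h i
      map_add' := fun a b => by
        funext i
        exact hadd a.toMul b.toMul i }
  let F : Additive A →ₗ[ℤ] (ι → ℝ) := f.toIntLinearMap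
  have hF : ∀ a : Additive A, F a = l a.toMul := fun a => rfl
  have hFinj : Function.Injective F := by
    rw [injective_iff_map_eq_zero]
    intro a ha
    rw [hF] at ha
    have := hinj a.toMul (fun i => by rw [ha]; rfl)
    exact this
  let L : Submodule ℤ (ι → ℝ) := LinearMap.range F
  let e : Additive A ≃ₗ[ℤ] L := LinearEquiv.ofInjective F hFinj
  have he : ∀ a : Additive A, ((e a : L) : ι → ℝ) = l a.toMul := fun a => rfl
  have hdisc : DiscreteTopology L := by
    apply discreteTopology_of_isOpen_singleton_zero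
    have hfin1 : {x : L | ‖x‖ ≤ 1}.Finite := by
      have h1 := (hfin 1).image (fun a => e (Additive.ofMul a))
      apply h1.subset
      intro x hx
      obtain ⟨a, rfl⟩ := e.surjective x
      refine ⟨a.toMul, ?_, rfl⟩
      intro i
      have h2 : ‖((e a : L) : ι → ℝ)‖ ≤ 1 := hx
      rw [he] at h2
      have := (pi_norm_le_iff_of_nonneg zero_le_one).1 h2 i
      simpa [Real.norm_eq_abs] using this
    have h3 : ({0} : Set L) = {x : L | ‖x‖ < 1} \ ({x : L | ‖x‖ ≤ 1} \ {0}) := by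
      ext x
      simp only [Set.mem_singleton_iff, Set.mem_sdiff, Set.mem_ofPred_eq, not_and, not_not]
      constructor
      · rintro rfl
        simp
      · rintro ⟨h4, h5⟩
        exact h5 h4.le
    rw [h3]
    apply IsOpen.sdiff
    · exact isOpen_lt continuous_norm continuous_const
    · exact (hfin1.subset Set.sdiff_subset).isClosed
  have h1 : Module.Finite ℤ L := inferInstance
  exact Module.Finite.equiv e.symm

variable {K H : Type} [Field K] [NumberField K] [Field H] [NumberField H] [Algebra K H]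

/-- The three conditions of LAT for a group of units inverted by `c` and positive at all the
embeddings above the first place. -/
theorem lat_cond [IsAbelianGalois K H] (φ₂ : K →+* ℝ) (e : H →+* ℝ) (c : H ≃ₐ[K] H)
    (hE : Emb K H φ₂ e c) (T : Set (H ≃ₐ[K] H)) (hTn : T.Nonempty)
    (hT2 : ∀ σ, σ ∉ T → c * σ ∈ T)
    (A : Subgroup Hˣ) (hA : ∀ x ∈ A, x ∈ Um c ∧ ∀ σ : H ≃ₐ[K] H, 0 < e (σ (x : H))) :
    (∀ a b : A, ∀ i : T, Real.log (e ((i : H ≃ₐ[K] H) (((a * b : A) : Hˣ) : H))) =
      Real.log (e ((i : H ≃ₐ[K] H) ((a : Hˣ) : H))) + Real.log (e ((i : H ≃ₐ[K] H) ((b : Hˣ) : H)))) ∧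
    (∀ a : A, (∀ i : T, Real.log (e ((i : H ≃ₐ[K] H) ((a : Hˣ) : H))) = 0) → a = 1) ∧
    (∀ B : ℝ, {a : A | ∀ i : T, |Real.log (e ((i : H ≃ₐ[K] H) ((a : Hˣ) : H)))| ≤ B}.Finite) := by
  have hcomm : ∀ σ τ : H ≃ₐ[K] H, σ * τ = τ * σ := fun σ τ => mul_comm' σ τ
  have hinv : ∀ (x : A) (σ : H ≃ₐ[K] H), e ((c * σ) ((x : Hˣ) : H)) =
      (e (σ ((x : Hˣ) : H)))⁻¹ := fun x σ => by
    rw [hcomm, AlgEquiv.mul_apply, (hA x x.2).1.2, map_inv₀, map_inv₀]
  refine ⟨fun a b i => ?_, fun a ha => ?_, fun B => ?_⟩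
  · simp only [Subgroup.coe_mul, Units.val_mul, map_mul]
    exact Real.log_mul ((hA a a.2).2 i).ne' ((hA b b.2).2 i).ne'
  · obtain ⟨i, hi⟩ := hTn
    have h2 := Real.eq_one_of_pos_of_log_eq_zero ((hA a a.2).2 i) (ha ⟨i, hi⟩)
    have h3 : ((a : Hˣ) : H) = 1 := by
      have h4 : e (i ((a : Hˣ) : H)) = e (i 1) := by rw [h2, map_one, map_one]
      exact i.injective (e.injective h4)
    apply Subtype.ext
    apply Units.ext
    exact h3
  · have hfin := NumberField.Embeddings.finite_of_norm_le H ℂ (Real.exp |B|)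
    refine Set.Finite.of_injOn (f := fun a : A => ((a : Hˣ) : H)) ?_ ?_ hfin
    · intro a ha
      refine ⟨(hA a a.2).1.1.2.1, fun g => ?_⟩
      have hbd : ∀ r : ℝ, 0 < r → |Real.log r| ≤ B → r ≤ Real.exp |B| := fun r hr hl => by
        have h5 : Real.log r ≤ |B| := (le_abs_self _).trans (hl.trans (le_abs_self B))
        calc r = Real.exp (Real.log r) := (Real.exp_log hr).symm
          _ ≤ Real.exp |B| := Real.exp_le_exp.2 h5
      rcases hE.all g with ⟨σ, hσ⟩ | hg
      · rw [hσ, Complex.norm_real, Real.norm_eq_abs, abs_of_pos ((hA a a.2).2 σ)]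
        by_cases hT : σ ∈ T
        · exact hbd _ ((hA a a.2).2 σ) (ha ⟨σ, hT⟩)
        · have h9 := ha ⟨c * σ, hT2 σ hT⟩
          simp only at h9
          rw [hinv, Real.log_inv, abs_neg] at h9
          exact hbd _ ((hA a a.2).2 σ) h9
      · rw [(hE.norm _ (Units.ne_zero _)).2 (hA a a.2).1.2 g hg]
        exact Real.one_le_exp (abs_nonneg _)
    · intro a _ b _ hab
      apply Subtype.ext
      apply Units.ext
      exact hab

/-- A half system has half as many elements. -/
theorem card_half {G : Type} [Group G] [Finite G] (c : G) (hc : c * c = 1)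
    (T : Set G) (hT1 : ∀ σ ∈ T, c * σ ∉ T) (hT2 : ∀ σ, σ ∉ T → c * σ ∈ T) :
    Nat.card G = 2 * Nat.card T := by
  classical
  have hcc : ∀ σ : G, c * (c * σ) = σ := fun σ => by rw [← mul_assoc, hc, one_mul]
  have e1 : G ≃ T × Bool :=
    { toFun := fun g => if h : g ∈ T then (⟨g, h⟩, true) else (⟨c * g, hT2 g h⟩, false)
      invFun := fun p => if p.2 then (p.1 : G) else c * (p.1 : G)
      left_inv := fun g => by
        by_cases h : g ∈ T
        · simp [h]
        · simp [h, hcc]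
      right_inv := fun p => by
        obtain ⟨⟨g, hg⟩, b⟩ := p
        cases b
        · have := hT1 g hg
          simp [this, hcc]
        · simp [hg] }
  rw [Nat.card_congr e1, Nat.card_prod, Nat.card_eq_fintype_card (α := Bool), Fintype.card_bool,
    mul_comm]

/-- The squares of the units inverted by `c`. -/
def SqU (c : H ≃ₐ[K] H) : Subgroup Hˣ := (Um c).map (powMonoidHom 2)

theorem mem_sqU (c : H ≃ₐ[K] H) (x : Hˣ) : x ∈ SqU c ↔ ∃ y ∈ Um c, y ^ 2 = x := by
  rw [SqU, Subgroup.mem_map]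
  rfl

theorem sqU_pos (c : H ≃ₐ[K] H) (e : H →+* ℝ) : ∀ x ∈ SqU c, x ∈ Um c ∧
    ∀ σ : H ≃ₐ[K] H, 0 < e (σ (x : H)) := by
  intro x hx
  obtain ⟨y, hy, rfl⟩ := (mem_sqU c x).1 hx
  refine ⟨Subgroup.pow_mem _ hy 2, fun σ => ?_⟩
  rw [Units.val_pow_eq_pow_val, map_pow, map_pow]
  have : e (σ (y : H)) ≠ 0 := by
    rw [Ne, map_eq_zero, map_eq_zero_iff _ σ.injective]
    exact y.ne_zero
  positivity

theorem um_map [IsAbelianGalois K H] (c σ : H ≃ₐ[K] H) {x : Hˣ} (hx : x ∈ Um c) :
    Units.map (σ : H →* H) x ∈ Um c := by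
  refine ⟨hx.1.map σ, ?_⟩
  show c (σ (x : H)) = (σ (x : H))⁻¹
  rw [← AlgEquiv.mul_apply, mul_comm' c σ, AlgEquiv.mul_apply, hx.2, map_inv₀]

theorem sqU_map [IsAbelianGalois K H] (c σ : H ≃ₐ[K] H) {x : Hˣ} (hx : x ∈ SqU c) :
    Units.map (σ : H →* H) x ∈ SqU c := by
  obtain ⟨y, hy, rfl⟩ := (mem_sqU c x).1 hx
  exact (mem_sqU c _).2 ⟨_, um_map c σ hy, (map_pow _ _ _).symm⟩

end Pool.Agent.L7h62.SQ
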