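import Pool.Agent.L7h62.SQ.Cyc1

/-!
# Project SQ, third stage: cyclic 2-extensions, index criterion
-/

set_option autoImplicit false

namespace Pool.Agent.L7h62.SQ

open Module NumberField IsDedekindDomain

variable {K H : Type} [Field K] [NumberField K] [Field H] [NumberField H] [Algebra K H]

/-- The subgroup of `Hˣ` generated by `-1` and the conjugates `σ u` of `u`. -/
def Conj (K : Type) {H : Type} [Field K] [Field H] [Algebra K H] (u : H) : Subgroup Hˣ :=
  Subgroup.closure (insert (-1) {y : Hˣ | ∃ σ : H ≃ₐ[K] H, (y : H) = σ u})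

/-- The index of the group generated by `-1` and the conjugates of `u` in the group of the units
of `H` inverted by `c` (zero if it is infinite). -/
noncomputable def unitIndex (c : H ≃ₐ[K] H) (u : H) : ℕ := (Conj K u).relIndex (Um c)

/-- The automorphism `σ` on the additive group of squares. -/
noncomputable def actS [IsAbelianGalois K H] (c σ : H ≃ₐ[K] H) :
    Additive (SqU c) →+ Additive (SqU c) :=
  MonoidHom.toAdditive
    { toFun := fun x => ⟨Units.map (σ : H →* H) (x : Hˣ), sqU_map c σ x.2⟩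
      map_one' := by
        apply Subtype.ext
        simp
      map_mul' := fun x y => by
        apply Subtype.ext
        simp }

theorem actS_val [IsAbelianGalois K H] (c σ : H ≃ₐ[K] H) (x : Additive (SqU c)) :
    (((actS c σ x).toMul : SqU c) : Hˣ) = Units.map (σ : H →* H) (x.toMul : Hˣ) := rfl

theorem actS_iter [IsAbelianGalois K H] (c σ : H ≃ₐ[K] H) (i : ℕ) (x : Additive (SqU c)) :
    ((((actS c σ)^[i] x).toMul : SqU c) : Hˣ) = Units.map ((σ ^ i : H ≃ₐ[K] H) : H →* H)
      (x.toMul : Hˣ) := by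
  induction i with
  | zero =>
      apply Units.ext
      rfl
  | succ i ih =>
      rw [Function.iterate_succ_apply', actS_val, ih]
      apply Units.ext
      show σ ((σ ^ i) _) = (σ ^ (i + 1)) _
      rw [pow_succ', AlgEquiv.mul_apply]

theorem cyc_sq (hL : S_LAT) (hM : S_MOD) [IsAbelianGalois K H] (φ₂ : K →+* ℝ) (e : H →+* ℝ)
    (c : H ≃ₐ[K] H) (hE : Emb K H φ₂ e c) (hc1 : c ≠ 1) (σ : H ≃ₐ[K] H)
    (hσ : ∀ τ : H ≃ₐ[K] H, ∃ i : ℕ, τ = σ ^ i) (k : ℕ) (hk : finrank K H = 2 ^ (k + 1))
    (u : H) (hu : StarkLike (K := K) φ₂ e u) (hdiv : 2 ^ (2 ^ k - 1) ∣ unitIndex c u) :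
    ∃ a : H, IsUnt a ∧ a ^ 2 * u = σ u ∧ c a = a⁻¹ := by
  classical
  have hcomm : ∀ σ τ : H ≃ₐ[K] H, σ * τ = τ * σ := fun σ τ => mul_comm' σ τ
  have hc2 : c * c = 1 := AlgEquiv.ext fun x => hE.cc x
  have hu0 := hu.1.1
  have hcu := (hE.norm u hu0).1 hu.2.2
  have hcardG : Nat.card (H ≃ₐ[K] H) = 2 ^ (k + 1) := by
    rw [← hk]
    exact IsGalois.card_aut_eq_finrank K H
  -- `c = σ ^ (2 ^ k)`
  have hord : orderOf σ = 2 ^ (k + 1) := by
    rw [← hcardG]
    refine orderOf_eq_card_of_forall_mem_zpowers fun τ => ?_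
    obtain ⟨i, hi⟩ := hσ τ
    exact ⟨i, by rw [hi]; exact zpow_natCast σ i⟩
  have hcσ : σ ^ (2 ^ k) = c := by
    obtain ⟨i, hi⟩ := hσ c
    have h1 : σ ^ (i * 2) = 1 := by rw [pow_mul, ← hi, pow_two, hc2]
    have h2 : 2 ^ (k + 1) ∣ i * 2 := by rw [← hord]; exact orderOf_dvd_of_pow_eq_one h1
    rw [pow_succ] at h2
    obtain ⟨j, hj⟩ := Nat.dvd_of_mul_dvd_mul_right (by norm_num) h2
    have h3 : (σ ^ (2 ^ k)) ^ 2 = 1 := by
      rw [← pow_mul, ← pow_succ, ← hord]
      exact pow_orderOf_eq_one σ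
    rcases Nat.even_or_odd' j with ⟨t, ht | ht⟩
    · exfalso
      apply hc1
      rw [hi, hj, ht, pow_mul, pow_mul, h3, one_pow]
    · rw [hi, hj, ht, pow_mul (n := 2 * t + 1), pow_succ, pow_mul, h3, one_pow, one_mul]
  obtain ⟨T, hTn, hT1, hT2⟩ := half_system c hc2 hc1
  have hcT : Nat.card T = 2 ^ k := by
    have h1 := card_half c hc2 T hT1 hT2
    rw [hcardG, pow_succ, mul_comm] at h1
    omega
  haveI : Nonempty T := hTn.to_subtype
  obtain ⟨l1, l2, l3⟩ := lat_cond φ₂ e c hE T hTn hT2 (SqU c) (sqU_pos c e)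
  have hfinM : Module.Finite ℤ (Additive (SqU c)) := lat_fin (SqU c) T _ l1 l2 l3
  have hcard := (hL (SqU c) T _ l1 l2 l3).2
  rw [← Nat.card_eq_fintype_card, hcT] at hcard
  -- the element
  have huU : Units.mk0 u hu0 ∈ Um c := ⟨hu.1, hcu⟩
  let U : Additive (SqU c) := Additive.ofMul ⟨(Units.mk0 u hu0) ^ 2, (mem_sqU c _).2 ⟨_, huU, rfl⟩⟩
  -- the quotient by doubles
  have hq : Nat.card (Additive (SqU c) ⧸
      (AddMonoidHom.id (Additive (SqU c)) + AddMonoidHom.id (Additive (SqU c))).range) ≤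
      2 ^ (2 ^ k) := by
    refine le_of_eq_of_le ?_ hcard
    have h1 : (AddMonoidHom.id (Additive (SqU c)) + AddMonoidHom.id (Additive (SqU c))).range =
        Subgroup.toAddSubgroup (powMonoidHom 2 : (SqU c) →* (SqU c)).range := by
      ext x
      constructor
      · rintro ⟨y, rfl⟩
        exact ⟨y.toMul, by
          show y.toMul ^ 2 = _
          rw [pow_two]
          rfl⟩
      · rintro ⟨y, hy⟩
        exact ⟨Additive.ofMul y, by
          show Additive.ofMul y + Additive.ofMul y = x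
          have h5 : y ^ 2 = x.toMul := hy
          rw [← ofMul_mul, ← pow_two, h5]
          rfl⟩
    rw [h1]
    rfl
  -- the index
  have hidx : (AddSubgroup.closure (Set.range fun i : ℕ => ((actS c σ)^[i]) U)).index =
      unitIndex c u := by
    have e1 : (AddSubgroup.closure (Set.range fun i : ℕ => ((actS c σ)^[i]) U)).index =
        (Subgroup.closure (Additive.ofMul ⁻¹' (Set.range fun i : ℕ => ((actS c σ)^[i]) U))).index := by
      have h1 : Subgroup.toAddSubgroup (Subgroup.closure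
          (Additive.ofMul ⁻¹' (Set.range fun i : ℕ => ((actS c σ)^[i]) U))) =
          AddSubgroup.closure (Set.range fun i : ℕ => ((actS c σ)^[i]) U) := by
        rw [Subgroup.toAddSubgroup_closure]
        rfl
      rw [← h1]
      rfl
    have e2 : (Subgroup.closure
        (Additive.ofMul ⁻¹' (Set.range fun i : ℕ => ((actS c σ)^[i]) U))).map (SqU c).subtype =
        (Conj K u).map (powMonoidHom 2) := by
      rw [MonoidHom.map_closure, Conj, MonoidHom.map_closure]
      apply le_antisymm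
      · rw [Subgroup.closure_le]
        rintro _ ⟨x, ⟨i, hi⟩, rfl⟩
        refine Subgroup.subset_closure ⟨Units.map ((σ ^ i : H ≃ₐ[K] H) : H →* H) (Units.mk0 u hu0),
          Or.inr ⟨σ ^ i, rfl⟩, ?_⟩
        have h1 := actS_iter c σ i U
        have h2 : (actS c σ)^[i] U = Additive.ofMul x := hi
        rw [h2] at h1
        show (Units.map ((σ ^ i : H ≃ₐ[K] H) : H →* H) (Units.mk0 u hu0)) ^ 2 = (x : Hˣ)
        rw [← map_pow]
        exact h1.symm
      · rw [Subgroup.closure_le]
        rintro _ ⟨y, hy, rfl⟩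
        rcases hy with rfl | ⟨τ, hτ⟩
        · show ((-1 : Hˣ)) ^ 2 ∈ _
          rw [neg_one_sq]
          exact Subgroup.one_mem _
        · obtain ⟨i, rfl⟩ := hσ τ
          refine Subgroup.subset_closure ⟨((actS c σ)^[i] U).toMul, ⟨i, rfl⟩, ?_⟩
          show ((((actS c σ)^[i] U).toMul : SqU c) : Hˣ) = y ^ 2
          rw [actS_iter]
          apply Units.ext
          show (σ ^ i) (u ^ 2) = (y : H) ^ 2
          rw [hτ, map_pow]
    have hker : (powMonoidHom 2 : Hˣ →* Hˣ).ker ≤ Conj K u := by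
      intro x hx
      have h1 : x ^ 2 = 1 := hx
      have h2 : (x : H) * (x : H) = 1 := by
        rw [← Units.val_mul, ← pow_two, h1, Units.val_one]
      rcases mul_self_eq_one_iff.1 h2 with h | h
      · have : x = 1 := Units.ext h
        rw [this]
        exact Subgroup.one_mem _
      · have : x = -1 := Units.ext h
        rw [this]
        exact Subgroup.subset_closure (Or.inl rfl)
    have hker2 : (powMonoidHom 2 : Hˣ →* Hˣ).ker ≤ Um c := by
      intro x hx
      have h1 : x ^ 2 = 1 := hx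
      have h2 : (x : H) * (x : H) = 1 := by
        rw [← Units.val_mul, ← pow_two, h1, Units.val_one]
      rcases mul_self_eq_one_iff.1 h2 with h | h
      · have : x = 1 := Units.ext h
        rw [this]
        exact Subgroup.one_mem _
      · have : x = -1 := Units.ext h
        rw [this]
        exact ⟨by simpa using isUnt_neg_one, by simp⟩
    rw [e1, unitIndex]
    have e3 : ((Conj K u).map (powMonoidHom 2)).relIndex ((Um c).map (powMonoidHom 2)) =
        (Conj K u).relIndex (Um c) := by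
      rw [Subgroup.relIndex_map_map, sup_of_le_left hker, sup_of_le_left hker2]
    rw [← e3, ← e2]
    show _ = (((Subgroup.closure _).map (SqU c).subtype).subgroupOf (SqU c)).index
    congr 1
    rw [Subgroup.subgroupOf, Subgroup.comap_map_eq_self_of_injective (SqU c).subtype_injective]
  -- apply MOD
  obtain ⟨y, hy⟩ := hM (Additive (SqU c))
    (fun x hx => by
      have h1 : x.toMul * x.toMul = 1 := hx
      have h2 : ((x.toMul : Hˣ) : H) * ((x.toMul : Hˣ) : H) = 1 := by
        rw [← Units.val_mul, ← Subgroup.coe_mul, h1]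
        rfl
      rcases mul_self_eq_one_iff.1 h2 with h | h
      · have h3 : x.toMul = 1 := Subtype.ext (Units.ext h)
        exact h3
      · exfalso
        have h3 := (sqU_pos c e _ x.toMul.2).2 1
        rw [AlgEquiv.one_apply, h, map_neg, map_one] at h3
        linarith)
    (actS c σ) k
    (fun x => by
      have h1 : ((((actS c σ)^[2 ^ k] x).toMul : SqU c) : Hˣ) = ((x.toMul)⁻¹ : SqU c) := by
        rw [actS_iter, hcσ]
        apply Units.ext
        show c ((x.toMul : Hˣ) : H) = (((x.toMul : SqU c)⁻¹ : Hˣ) : H)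
        rw [Units.val_inv_eq_inv_val]
        exact (sqU_pos c e _ x.toMul.2).1.2
      exact Subtype.ext h1)
    hq U (by rw [hidx]; exact hdiv)
  -- translate back
  obtain ⟨w, hw, hwy⟩ := (mem_sqU c _).1 y.toMul.2
  have h1 : (Units.map (σ : H →* H) ((Units.mk0 u hu0) ^ 2)) * ((Units.mk0 u hu0) ^ 2)⁻¹ =
      (w ^ 2) * (w ^ 2) := by
    rw [hwy]
    have h2 := congrArg (fun t : Additive (SqU c) => ((t.toMul : SqU c) : Hˣ)) hy
    have h2' : ((((actS c σ U).toMul : SqU c) : Hˣ)) * (((U.toMul : SqU c) : Hˣ))⁻¹ =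
        ((y.toMul : SqU c) : Hˣ) * ((y.toMul : SqU c) : Hˣ) := by
      simpa [sub_eq_add_neg] using h2
    rw [actS_val] at h2'
    exact h2'
  have h3 : (σ u * u⁻¹) ^ 2 = ((w : H) ^ 2) ^ 2 := by
    have h4 := congrArg (fun t : Hˣ => (t : H)) h1
    have h5 : σ (u ^ 2) * (u ^ 2)⁻¹ = (w : H) ^ 2 * (w : H) ^ 2 := by
      simpa using h4
    rw [mul_pow, ← map_pow, inv_pow, h5]
    ring
  have h6 : σ u * u⁻¹ = (w : H) ^ 2 := by
    rcases sq_eq_sq_iff_eq_or_eq_neg.1 h3 with h | h
    · exact h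
    · exfalso
      have h7 : 0 < e (σ u * u⁻¹) := by
        rw [map_mul, map_inv₀]
        exact mul_pos (hu.2.1 σ) (inv_pos.2 (hu.2.1 1))
      rw [h, map_neg, map_pow] at h7
      have : 0 ≤ (e (w : H)) ^ 2 := sq_nonneg _
      linarith
  refine ⟨(w : H), hw.1, ?_, hw.2⟩
  rw [← h6]
  field_simp

end Pool.Agent.L7h62.SQ
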