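import Pool.Agent.L7h62.SQ.Cyc2

/-!
# Project SQ, third stage: cyclic 2-extensions and the index formula
-/

set_option autoImplicit false

namespace Pool.Agent.L7h62.SQ

open Module NumberField IsDedekindDomain
open Pool.Agent.TeamU (Unr)

variable {K H : Type} [Field K] [NumberField K] [Field H] [NumberField H] [Algebra K H]

theorem cyc_all (hL : S_LAT) (hM : S_MOD) (hA : S_ABL) [IsAbelianGalois K H] (φ₂ : K →+* ℝ)
    (e : H →+* ℝ) (c : H ≃ₐ[K] H) (hE : Emb K H φ₂ e c) (hc1 : c ≠ 1) (σ : H ≃ₐ[K] H)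
    (hσ : ∀ τ : H ≃ₐ[K] H, ∃ i : ℕ, τ = σ ^ i) (k : ℕ) (hk : finrank K H = 2 ^ (k + 1))
    (u : H) (hu : StarkLike (K := K) φ₂ e u) (hdiv : 2 ^ (2 ^ k - 1) ∣ unitIndex c u) :
    RootAbelian K u ∧ ∀ τ : H ≃ₐ[K] H, ∃ a : H, IsUnt a ∧ a ^ 2 * u = τ u := by
  obtain ⟨w, hw1, hw2, hw3⟩ := cyc_sq hL hM φ₂ e c hE hc1 σ hσ k hk u hu hdiv
  have hcx : ∀ (τ : H ≃ₐ[K] H) (x : H), c (τ x) = τ (c x) := fun τ x => by
    rw [← AlgEquiv.mul_apply, mul_comm' c τ, AlgEquiv.mul_apply]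
  have key : ∀ i : ℕ, ∃ a : H, IsUnt a ∧ a ^ 2 * u = (σ ^ i) u ∧ c a = a⁻¹ := by
    intro i
    induction i with
    | zero => exact ⟨1, isUnt_one, by simp, by simp⟩
    | succ i ih =>
        obtain ⟨a, h1, h2, h3⟩ := ih
        refine ⟨σ a * w, (h1.map σ).mul hw1, ?_, ?_⟩
        · have h4 : (σ ^ (i + 1)) u = σ ((σ ^ i) u) := by
            rw [pow_succ' σ i, AlgEquiv.mul_apply]
          rw [h4, ← h2, map_mul, map_pow, ← hw2]
          ring
        · rw [map_mul, hcx, h3, hw3, map_inv₀, mul_inv]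
  have key2 : ∀ τ : H ≃ₐ[K] H, ∃ a : H, IsUnt a ∧ a ^ 2 * u = τ u ∧ c a = a⁻¹ := fun τ => by
    obtain ⟨i, rfl⟩ := hσ τ
    exact key i
  refine ⟨?_, fun τ => ?_⟩
  · intro M _ _ _ _ α hα hM'
    refine hA K H c σ (fun τ => ?_) u hu.1.1 ((hE.norm u hu.1.1).1 hu.2.2)
      (fun τ => by
        obtain ⟨a, -, h1, h2⟩ := key2 τ
        exact ⟨a, h1, h2⟩) M α hα hM'
    obtain ⟨i, hi⟩ := hσ τ
    exact ⟨1, 0, i, by rw [one_pow, pow_zero, one_mul, one_mul, hi]⟩
  · obtain ⟨a, h1, h2, -⟩ := key2 τ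
    exact ⟨a, h1, h2⟩

/-- The group of the quotients `v / c(v)` of units `v` of `H`. -/
def Uone (c : H ≃ₐ[K] H) : Subgroup Hˣ where
  carrier := {y | ∃ v : H, IsUnt v ∧ (y : H) = v / c v}
  one_mem' := ⟨1, isUnt_one, by simp⟩
  mul_mem' := by
    rintro x y ⟨v, h1, h2⟩ ⟨w, h3, h4⟩
    exact ⟨v * w, h1.mul h3, by rw [Units.val_mul, h2, h4, map_mul, div_mul_div_comm]⟩
  inv_mem' := by
    rintro x ⟨v, h1, h2⟩
    exact ⟨v⁻¹, h1.inv, by rw [Units.val_inv_eq_inv_val, h2, map_inv₀, inv_div_inv, inv_div]⟩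

/-- The index of the group of the quotients `v / c(v)` in the group of the units inverted by `c` (the
order of `H^(-1)` of `⟨c⟩` in the units). -/
noncomputable def normOneIndex (c : H ≃ₐ[K] H) : ℕ := (Uone c).relIndex (Um c)

/-- The index formula for `u`: `4 [U⁻ : ⟨-1, σ u⟩] = h⁻ e₁ 2 ^ (n/2) E`, where `n = 2 ^ (k + 1)`,
`h⁻ = h(H)/h(H⁺)`, `e₁ = normOneIndex c`, and the factor `E` is even or some prime of `H` is ramified
over `H⁺`. -/
def IndexFormula (c : H ≃ₐ[K] H) (k : ℕ) (u : H) : Prop :=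
  ∃ hm E : ℕ, classNumber H = hm * classNumber (Plus c) ∧
    4 * unitIndex c u = hm * normOneIndex c * 2 ^ (2 ^ k) * E ∧
    (Even E ∨ ∃ P : HeightOneSpectrum (𝓞 H), ¬ Unr (Plus c) P)

theorem um_le_uone (c : H ≃ₐ[K] H) (h : Odd (normOneIndex c)) : Um c ≤ Uone c := by
  intro y hy
  have hn : ((Uone c).subgroupOf (Um c)).Normal := inferInstance
  have h1 : (⟨y, hy⟩ : Um c) ^ ((Uone c).subgroupOf (Um c)).index ∈ (Uone c).subgroupOf (Um c) :=
    Subgroup.pow_index_mem _ _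
  have h2 : (⟨y, hy⟩ : Um c) ^ 2 ∈ (Uone c).subgroupOf (Um c) := by
    refine ⟨(y : H), hy.1, ?_⟩
    show (((⟨y, hy⟩ : Um c) ^ 2 : Um c) : Hˣ).val = _
    rw [hy.2, div_inv_eq_mul, Subgroup.coe_pow, Units.val_pow_eq_pow_val, pow_two]
  have h3 : ((Uone c).subgroupOf (Um c)).index = normOneIndex c := rfl
  rw [h3] at h1
  obtain ⟨t, ht⟩ := h
  rw [ht, pow_succ, pow_mul] at h1
  exact (Subgroup.mul_mem_cancel_left _ (Subgroup.pow_mem _ h2 t)).1 h1

theorem div_of_formula (hG : S_GEN) [IsAbelianGalois K H] (c : H ≃ₐ[K] H)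
    (hcc : ∀ x, c (c x) = x) (hc1 : c ≠ 1) (k : ℕ) (u : H) (h : IndexFormula c k u) :
    2 ^ (2 ^ k - 1) ∣ unitIndex c u := by
  obtain ⟨hm, E, h1, h2, h3⟩ := h
  have heven : Even (hm * normOneIndex c * E) := by
    rcases h3 with h3 | ⟨P, hP⟩
    · exact h3.mul_left _
    · by_cases h4 : Even (normOneIndex c)
      · exact (h4.mul_left _).mul_right _
      · rw [Nat.not_even_iff_odd] at h4
        have h5 := um_le_uone c h4
        have hc2 : c * c = 1 := AlgEquiv.ext fun x => hcc x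
        have hord : orderOf c = 2 := orderOf_eq_prime (by rw [pow_two, hc2]) hc1
        have hfr : finrank (Plus c) H = 2 := by
          rw [Plus, IntermediateField.finrank_fixedField_eq_card, Nat.card_zpowers, hord]
        let cF : H ≃ₐ[Plus c] H := AlgEquiv.ofRingEquiv (f := (c : H ≃+* H))
          (fun x => (fix_iff c _).2 ⟨x, rfl⟩)
        have hcF : ∀ x, cF x = c x := fun x => rfl
        have h6 := hG (Plus c) H hfr cF
          (fun h => hc1 (AlgEquiv.ext fun x => by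
            rw [← hcF, h]
            rfl))
          (fun v hv => by
            have hv0 : ((v : 𝓞 H) : H) ≠ 0 := fun h => by
              rw [h, zero_mul] at hv
              exact zero_ne_one hv
            have hvi : (((v : 𝓞 H) : H))⁻¹ = (((v⁻¹ : (𝓞 H)ˣ) : 𝓞 H) : H) := by
              refine inv_eq_of_mul_eq_one_right ?_
              rw [← map_mul, Units.mul_inv, map_one]
            have hU : IsUnt ((v : 𝓞 H) : H) :=
              ⟨hv0, NumberField.RingOfIntegers.isIntegral_coe _, by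
                rw [hvi]
                exact NumberField.RingOfIntegers.isIntegral_coe _⟩
            have hvm : Units.mk0 ((v : 𝓞 H) : H) hv0 ∈ Um c :=
              ⟨hU, by
                show c ((v : 𝓞 H) : H) = ((v : 𝓞 H) : H)⁻¹
                rw [← hcF]
                exact (inv_eq_of_mul_eq_one_right hv).symm⟩
            obtain ⟨w, hw1, hw2⟩ := h5 hvm
            refine ⟨⟨⟨w, hw1.2.1⟩, ⟨w⁻¹, hw1.2.2⟩, ?_, ?_⟩, hw2⟩
            · apply NumberField.RingOfIntegers.ext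
              show w * w⁻¹ = 1
              exact mul_inv_cancel₀ hw1.1
            · apply NumberField.RingOfIntegers.ext
              show w⁻¹ * w = 1
              exact inv_mul_cancel₀ hw1.1) ⟨P, hP⟩
        rw [h1] at h6
        have h7 : 0 < classNumber (Plus c) := classNumber_pos (Plus c)
        have h8 : 2 ∣ hm := Nat.dvd_of_mul_dvd_mul_right h7 h6
        exact ((even_iff_two_dvd.2 h8).mul_right _).mul_right _
  obtain ⟨q, hq⟩ := heven
  refine ⟨q, ?_⟩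
  have h9 : 2 ^ (2 ^ k) = 2 * 2 ^ (2 ^ k - 1) := by
    rw [← pow_succ', Nat.sub_add_cancel Nat.one_le_two_pow]
  have h10 : 4 * unitIndex c u = 4 * (2 ^ (2 ^ k - 1) * q) := by
    rw [h2, h9]
    calc hm * normOneIndex c * (2 * 2 ^ (2 ^ k - 1)) * E
        = (hm * normOneIndex c * E) * (2 * 2 ^ (2 ^ k - 1)) := by ring
      _ = (q + q) * (2 * 2 ^ (2 ^ k - 1)) := by rw [hq]
      _ = 4 * (2 ^ (2 ^ k - 1) * q) := by ring
  omega

end Pool.Agent.L7h62.SQ
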