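import Pool.Agent.Y682.NCl

/-!
# Project SQ, second stage: one ramified prime

Statements.  All fields are number fields in `Type`.  `Pool.Agent.TeamU.Over P v`: the prime `P` lies
over `v`; `Pool.Agent.TeamU.Unr F P`: `P` has ramification index one over `F` (its valuation extends
that of the prime below).
-/

set_option autoImplicit false

namespace Pool.Agent.L7h62.SQ

open Module NumberField IsDedekindDomain
open Pool.Agent.TeamU (Over Unr)

/-- `x` has even valuation at `v`. -/
def EvenAt {F : Type} [Field F] [NumberField F] (v : HeightOneSpectrum (𝓞 F)) (x : F) : Prop :=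
  ∃ n : ℤ, v.valuation F x = WithZero.exp (2 * n)

/-- Every totally positive element with even valuations is a square (for a totally real field this
says that the narrow class number is odd). -/
def Sel (F : Type) [Field F] [NumberField F] : Prop :=
  ∀ x : F, x ≠ 0 → (∀ φ : F →+* ℝ, 0 < φ x) → (∀ v : HeightOneSpectrum (𝓞 F), EvenAt v x) →
    ∃ y : F, y ^ 2 = x

/-- The field is totally real. -/
def TReal (F : Type) [Field F] : Prop := ∀ (g : F →+* ℂ) (x : F), (g x).im = 0

/-- SEL.  A totally real field with odd narrow class number satisfies `Sel`.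
Proof: `Pool.Agent.Y682.even_val` gives `x = u * y ^ 2` with a unit `u`, totally positive; a totally
positive unit is a square: the signature map `sgU` is onto (`Pool.Agent.Y682.sgU_surj`) and
`(𝓞 F)ˣ/squares` has `2 ^ [F:ℚ]` elements (Dirichlet; `F` is totally real) while there are
`2 ^ [F:ℚ]` signatures, so the kernel of the signature map consists of squares. -/
def S_SEL : Prop :=
  ∀ (F : Type) [Field F] [NumberField F], TReal F → Odd (Nat.card (Pool.Agent.Y682.NCl F)) → Sel F

/-- VAL.  Valuations in an extension `L/F` of number fields.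
(a) A prime `P` over `v` has `P(a) = v(a) ^ e` on `F` with `e ≥ 1`
(`IsDedekindDomain.HeightOneSpectrum.valuation_liesOver`).
(b) For an automorphism `σ` of `L` over `F` and a prime `P` of `L` over `v` there is a prime `P'` of `L`
over `v` with `P'(x) = P(σ x)` for all `x`.
(c) If `P(a) = exp (-1)` for some `a ∈ F` then `Unr F P`; if `Unr F P` such an `a` exists. -/
def S_VAL : Prop :=
  ∀ (F L : Type) [Field F] [NumberField F] [Field L] [NumberField L] [Algebra F L],
    (∀ (P : HeightOneSpectrum (𝓞 L)) (v : HeightOneSpectrum (𝓞 F)), Over P v →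
      (∃ e : ℕ, 1 ≤ e ∧ ∀ a : F, P.valuation L (algebraMap F L a) = v.valuation F a ^ e) ∧
      ∀ σ : L ≃ₐ[F] L, ∃ P' : HeightOneSpectrum (𝓞 L), Over P' v ∧
        ∀ x : L, P'.valuation L x = P.valuation L (σ x)) ∧
    ∀ P : HeightOneSpectrum (𝓞 L),
      Unr F P ↔ ∃ a : F, P.valuation L (algebraMap F L a) = WithZero.exp (-1 : ℤ)

/-- TOW.  A tower `K ⊆ F ⊆ L`.
(a) if `P` is over `v` and `v` over `p` then `P` is over `p`; if `P` is over `v` and over `p` then `v` is
over `p`.
(b) `Unr K P → Unr F P`; (c) `Unr K P`, `P` over `v` imply `Unr K v`.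
Proof: (b), (c) from the characterisation (c) of VAL: if `P(a) = exp (-1)`, `a ∈ K`, then
`v(a) ^ e = exp (-1)` forces `e = 1`. -/
def S_TOW : Prop :=
  ∀ (K F L : Type) [Field K] [NumberField K] [Field F] [NumberField F] [Field L] [NumberField L]
    [Algebra K F] [Algebra F L] [Algebra K L] [IsScalarTower K F L]
    (P : HeightOneSpectrum (𝓞 L)) (v : HeightOneSpectrum (𝓞 F)), Over P v →
    (∀ p : HeightOneSpectrum (𝓞 K), Over P p ↔ Over v p) ∧
    (Unr K P → Unr F P) ∧ (Unr K P → Unr K v)

/-- POS.  If `L` is totally real and `F ⊆ L`, then `F` is totally real and every real embedding of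
`F` extends to a real embedding of `L`.  (Every complex embedding of `F` extends to `L`:
`IsAlgClosed.lift` or `NumberField` lemmas.) -/
def S_POS : Prop :=
  ∀ (F L : Type) [Field F] [NumberField F] [Field L] [NumberField L] [Algebra F L], TReal L →
    TReal F ∧ ∀ φ : F →+* ℝ, ∃ ψ : L →+* ℝ, ∀ x, ψ (algebraMap F L x) = φ x

/-- STEP.  `L/F` quadratic, `L` totally real, `Sel F`, and `L/F` is unramified outside one prime `v₀`
of `F`.  Then `Sel L` holds and `L` has at most one prime over `v₀`.

Proof.  `L = F(√δ)`; `δ ≫ 0` because real embeddings extend (POS).  For `v ≠ v₀` take `P` over `v`: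
`v(δ) = P(δ) = 2 P(√δ)` is even.  So `v₀(δ)` is odd (else `Sel F` makes `δ` a square).  Let `τ` be the
automorphism.  One prime over `v₀`: for `P` over `v₀`, `P(δ) = e v₀(δ)` is even, so `e` is even, `e ≥ 2`;
by `∑ e f = 2` there is one prime (Mathlib: `Ideal.sum_ramification_inertia` or the Galois version;
two primes would give `∑ ≥ 4`).  `Sel L`: let `b ≫ 0` with even valuations.  `N = b τ(b) ∈ F` is `≫ 0`;
`v(N)` is even: for `v ≠ v₀`, `v(N) = P(b) + P(τ b)` (Unr); for `v₀`, `P` is the only prime over `v₀`, so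
`P(τ b) = P(b) = 2 m`, `e v₀(N) = 4 m` with `e = 2`.  By `Sel F`, `N = η ^ 2`, and replacing `η` by `-η`,
`b + η ≠ 0`.  Let `a = b + τ b + 2 η ∈ F`; then `a b = (b + η) ^ 2`.  So `a ≫ 0`, and for `v ≠ v₀`,
`v(a) = P(a) = 2 P(b + η) - P(b)` is even.  If `v₀(a)` is even then `a = y ^ 2` and
`b = ((b + η) / y) ^ 2`.  If it is odd then `a δ` has even valuations, `a δ = y ^ 2`,
`b = ((b + η) √δ / y) ^ 2`. -/
def S_STEP : Prop :=
  ∀ (F L : Type) [Field F] [NumberField F] [Field L] [NumberField L] [Algebra F L],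
    finrank F L = 2 → TReal L → Sel F → ∀ v₀ : HeightOneSpectrum (𝓞 F),
    (∀ P : HeightOneSpectrum (𝓞 L), Over P v₀ ∨ Unr F P) →
    Sel L ∧ ∀ P Q : HeightOneSpectrum (𝓞 L), Over P v₀ → Over Q v₀ → P = Q

/-- IND.  `F/K` Galois of degree `2 ^ k`, `F` totally real, `Sel K`, unramified outside one prime `p` of
`K`.  Then `Sel F`, and `F` has at most one prime over `p`.

Proof: induction on `k`.  For `k = 0` the map `K → F` is bijective.  For `k ≥ 1` the 2-group `Gal(F/K)`
has a central element `τ` of order two; `E` = its fixed field (an `IntermediateField K F`) is Galois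
over `K` of degree `2 ^ (k-1)`, totally real (POS), unramified over `K` outside `p` (TOW).  By induction
`Sel E` and `E` has at most one (so exactly one) prime `v₀` over `p`; `F/E` is quadratic and unramified
outside `v₀` (TOW), so STEP applies. -/
def S_IND : Prop :=
  ∀ (k : ℕ) (K F : Type) [Field K] [NumberField K] [Field F] [NumberField F] [Algebra K F]
    [IsGalois K F], finrank K F = 2 ^ k → TReal F → Sel K → ∀ p : HeightOneSpectrum (𝓞 K),
    (∀ P : HeightOneSpectrum (𝓞 F), Over P p ∨ Unr K P) →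
    Sel F ∧ ∀ P Q : HeightOneSpectrum (𝓞 F), Over P p → Over Q p → P = Q

/-- GRP.  Pure group theory: in a finite commutative group any two subgroups of index two containing
`c` are equal; then for some `σ₀` every element is `ρ ^ 2 * c ^ i * σ₀ ^ j`.

Proof: let `D` be the subgroup `{ρ ^ 2 c ^ i}`.  Lemma: a subgroup `A ⊇ D` and `τ ∉ A` have
a subgroup `N ⊇ A` of index two with `τ ∉ N` (take `N` maximal with `A ⊆ N`, `τ ∉ N`; for `g ∉ N`, as
`g ^ 2 ∈ N`, `N ∪ N g` is a group containing `τ`, so `g ∈ N τ`).  If `D = G` take `σ₀ = 1`.  Otherwise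
take `σ₀ ∉ D`; if `σ₁ ∉ D ∪ D σ₀`, apply the lemma to `A = D ∪ D σ₀`, `τ = σ₁` and to
`A = D ∪ D σ₁`, `τ = σ₀`: two different subgroups. -/
def S_GRP : Prop :=
  ∀ (G : Type) [CommGroup G] [Finite G] (c : G),
    (∀ N₁ N₂ : Subgroup G, N₁.index = 2 → N₂.index = 2 → c ∈ N₁ → c ∈ N₂ → N₁ = N₂) →
    ∃ σ₀ : G, ∀ σ : G, ∃ (ρ : G) (i j : ℕ), σ = ρ ^ 2 * c ^ i * σ₀ ^ j

/-- TWO.  `H/K` abelian, `c` in the Galois group such that the elements of `H` fixed by `c` are
totally real, `Sel K`, `H/K` unramified outside one prime `p`: then two subgroups of index two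
containing `c` are equal.

Proof.  For a subgroup `N` of index two there is `x ∈ H`, `x ≠ 0`, with `σ x = x` for `σ ∈ N` and
`σ x = -x` for `σ ∉ N` (take `y` fixed by `N` and not by `G`, `x = y - σ₀ y` with `σ₀ ∉ N`).  Then
`δ = x ^ 2 ∈ K`, and `δ ≫ 0` if `c ∈ N` (a real embedding of `K` extends to `g : H → ℂ`, `g(x)` is
real and `g(δ) = g(x) ^ 2`), and `v(δ)` is even for `v ≠ p` (`P` over `v`, `Unr K P`,
`v(δ) = 2 P(x)`); `v = p` has odd `v(δ)` by `Sel K` (if `δ = y ^ 2`, `x = ± y ∈ K`, but `σ x = -x` for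
some `σ`).  For two different `N₁`, `N₂` the product `δ₁ δ₂` has even valuations, so it is a square in
`K` and `x₁ x₂ ∈ K`; but some `σ` lies in exactly one of `N₁`, `N₂` and sends `x₁ x₂` to `-x₁ x₂`. -/
def S_TWO : Prop :=
  ∀ (K H : Type) [Field K] [NumberField K] [Field H] [NumberField H] [Algebra K H]
    [IsAbelianGalois K H] (c : H ≃ₐ[K] H),
    (∀ x : H, c x = x → ∀ g : H →+* ℂ, (g x).im = 0) → Sel K →
    ∀ p : HeightOneSpectrum (𝓞 K), (∀ P : HeightOneSpectrum (𝓞 H), Over P p ∨ Unr K P) →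
    ∀ N₁ N₂ : Subgroup (H ≃ₐ[K] H), N₁.index = 2 → N₂.index = 2 → c ∈ N₁ → c ∈ N₂ → N₁ = N₂

end Pool.Agent.L7h62.SQ
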