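import Pool.Agent.L7h62.SQ.Main3
import Pool.Agent.L7h62.SQ.Stm2

/-!
# Project SQ, second stage: `σ(u)/u` is a square if the real subfield has odd narrow class number
-/

set_option autoImplicit false

namespace Pool.Agent.L7h62.SQ

open Module NumberField IsDedekindDomain
open Pool.Agent.TeamU (Unr)

/-- Complex embeddings extend. -/
theorem exists_ext (F H : Type) [Field F] [NumberField F] [Field H] [NumberField H] [Algebra F H]
    (g : F →+* ℂ) : ∃ G : H →+* ℂ, ∀ x, G (algebraMap F H x) = g x := by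
  letI := g.toAlgebra
  let G : H →ₐ[F] ℂ := IsAlgClosed.lift
  exact ⟨G, fun x => G.commutes x⟩

section

variable {K H : Type} [Field K] [NumberField K] [Field H] [NumberField H] [Algebra K H]

/-- Elements fixed by `c` are totally real. -/
theorem Emb.real {φ₂ : K →+* ℝ} {e : H →+* ℝ} {c : H ≃ₐ[K] H} (hE : Emb K H φ₂ e c)
    (hc : IsConj φ₂ c) (x : H) (hx : c x = x) (g : H →+* ℂ) : (g x).im = 0 := by
  rcases hE.all g with ⟨σ, hσ⟩ | hg
  · rw [hσ, Complex.ofReal_im]
  · have h1 := hc g hg x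
    rw [hx] at h1
    exact Complex.conj_eq_iff_im.1 h1.symm

theorem StarkLike.ne_neg_one {φ₂ : K →+* ℝ} {e : H →+* ℝ} {u : H} (hu : StarkLike φ₂ e u) :
    1 + u ≠ 0 := fun h => by
  have h1 : u = -1 := by linear_combination h
  have h2 := hu.2.1 1
  rw [h1, AlgEquiv.one_apply, map_neg, map_one] at h2
  linarith

/-- `(1 + u)(1 + u⁻¹)` is totally positive. -/
theorem totpos_aux {φ₂ : K →+* ℝ} {e : H →+* ℝ} {c : H ≃ₐ[K] H} (hE : Emb K H φ₂ e c)
    {u : H} (hu : StarkLike φ₂ e u) (g : H →+* ℂ) :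
    ∃ r : ℝ, 0 < r ∧ g ((1 + u) * (1 + u⁻¹)) = r := by
  rcases hE.all g with ⟨σ, hσ⟩ | hg
  · refine ⟨(1 + e (σ u)) * (1 + (e (σ u))⁻¹), ?_, ?_⟩
    · have h1 := hu.2.1 σ
      have h2 := inv_pos.2 h1
      positivity
    · rw [hσ]
      simp only [map_mul, map_add, map_one, map_inv₀]
  · refine ⟨Complex.normSq (1 + g u), ?_, ?_⟩
    · refine Complex.normSq_pos.2 fun h => ?_
      apply hu.ne_neg_one
      apply g.injective
      rw [map_add, map_one, map_zero]
      exact h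
    · have h1 := hu.2.2 g hg
      have h2 : (g u)⁻¹ = (starRingEnd ℂ) (g u) := by
        rw [Complex.inv_def, Complex.normSq_eq_norm_sq, h1]
        simp
      rw [map_mul, map_add, map_add, map_one, map_inv₀, h2, ← Complex.mul_conj]
      simp only [map_add, map_one]

/-- A unit has valuation one. -/
theorem IsUnt.val {u : H} (hu : IsUnt u) (P : HeightOneSpectrum (𝓞 H)) : P.valuation H u = 1 := by
  have key : ∀ x : H, IsIntegral ℤ x → P.valuation H x ≤ 1 := fun x hx =>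
    P.valuation_le_one (⟨x, hx⟩ : 𝓞 H)
  refine le_antisymm (key u hu.2.1) ?_
  have h1 := key u⁻¹ hu.2.2
  rw [map_inv₀] at h1
  have h0 : P.valuation H u ≠ 0 := (Valuation.ne_zero_iff _).2 hu.1
  exact (inv_le_one₀ (zero_lt_iff.2 h0)).1 h1

theorem exists_exp {F : Type} [Field F] [NumberField F] (v : HeightOneSpectrum (𝓞 F)) (x : F)
    (hx : x ≠ 0) : ∃ n : ℤ, v.valuation F x = WithZero.exp n := by
  have h0 : v.valuation F x ≠ 0 := (Valuation.ne_zero_iff _).2 hx
  exact ⟨WithZero.log (v.valuation F x), (WithZero.exp_log h0).symm⟩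

/-- The valuation of `(1 + u)(1 + u⁻¹)` is even. -/
theorem even_aux {φ₂ : K →+* ℝ} {e : H →+* ℝ} {u : H} (hu : StarkLike φ₂ e u)
    (P : HeightOneSpectrum (𝓞 H)) :
    ∃ n : ℤ, P.valuation H ((1 + u) * (1 + u⁻¹)) = WithZero.exp (2 * n) := by
  obtain ⟨n, hn⟩ := exists_exp P (1 + u) hu.ne_neg_one
  refine ⟨n, ?_⟩
  have h1 : (1 + u) * (1 + u⁻¹) = (1 + u) * (1 + u) * u⁻¹ := by
    have := hu.1.1
    field_simp
    ring
  rw [h1, map_mul, map_mul, map_inv₀, hu.1.val P, inv_one, mul_one, hn, ← WithZero.exp_add, two_mul]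

end

/-- The main step. -/
theorem fin (K F H : Type) [Field K] [NumberField K] [Field F] [NumberField F] [Field H]
    [NumberField H] [Algebra F H] [Algebra K H] [IsAbelianGalois K H]
    (φ₂ : K →+* ℝ) (e : H →+* ℝ) (c : H ≃ₐ[K] H) (hE : Emb K H φ₂ e c)
    (hfix : ∀ x : H, c x = x ↔ ∃ y : F, algebraMap F H y = x) (hSel : Sel F)
    (hst : ∀ v : HeightOneSpectrum (𝓞 F),
      (∀ P : HeightOneSpectrum (𝓞 H), Pool.Agent.TeamU.Over P v → Unr F P) ∨
      ∀ (σ : H ≃ₐ[K] H) (a b : F), algebraMap F H b = σ (algebraMap F H a) →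
        v.valuation F b = v.valuation F a)
    (u : H) (hu : StarkLike φ₂ e u) (σ : H ≃ₐ[K] H) :
    ∃ α : H, IsUnt α ∧ α ^ 2 * u = σ u ∧ c α = α⁻¹ := by
  have hcomm : ∀ σ τ : H ≃ₐ[K] H, σ * τ = τ * σ := fun σ τ => mul_comm' σ τ
  have hcx : ∀ (τ : H ≃ₐ[K] H) (x : H), c (τ x) = τ (c x) := fun τ x => by
    rw [← AlgEquiv.mul_apply, hcomm, AlgEquiv.mul_apply]
  have hu0 := hu.1.1
  have hcu := (hE.norm u hu0).1 hu.2.2
  have hz := hu.ne_neg_one
  have hz' : (1 + u⁻¹) ≠ 0 := fun h => hz (by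
    have := congrArg (· * u) h
    simp only [add_mul, inv_mul_cancel₀ hu0, one_mul, zero_mul] at this
    linear_combination this)
  have hcz : c (1 + u) = 1 + u⁻¹ := by rw [map_add, map_one, hcu]
  have hcz' : c (1 + u⁻¹) = 1 + u := by rw [map_add, map_one, map_inv₀, hcu, inv_inv]
  obtain ⟨a, ha⟩ := (hfix ((1 + u) * (1 + u⁻¹))).1 (by rw [map_mul, hcz, hcz', mul_comm])
  have hsu := hu.map σ
  obtain ⟨a', ha'⟩ := (hfix (σ (algebraMap F H a))).1 (by
    rw [hcx, ha]
    congr 1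
    rw [map_mul, hcz, hcz', mul_comm])
  have ha'2 : algebraMap F H a' = (1 + σ u) * (1 + (σ u)⁻¹) := by
    rw [ha', ha]
    simp only [map_mul, map_add, map_one, map_inv₀]
  have ha0 : a ≠ 0 := fun h => by
    rw [h, map_zero] at ha
    exact mul_ne_zero hz hz' ha.symm
  have ha'0 : a' ≠ 0 := fun h => by
    rw [h, map_zero] at ha'
    have := (map_eq_zero_iff σ σ.injective).1 ha'.symm
    rw [ha] at this
    exact mul_ne_zero hz hz' this
  have hpos : ∀ (b : F) (y : H), StarkLike (K := K) φ₂ e y →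
      algebraMap F H b = (1 + y) * (1 + y⁻¹) → ∀ φ : F →+* ℝ, 0 < φ b := fun b y hy hb φ => by
    obtain ⟨g, hg⟩ := exists_ext F H (Complex.ofRealHom.comp φ)
    obtain ⟨r, hr, hgr⟩ := totpos_aux hE hy g
    rw [← hb, hg] at hgr
    have : φ b = r := Complex.ofReal_injective hgr
    rw [this]
    exact hr
  obtain ⟨b, hb⟩ := hSel (a' / a) (div_ne_zero ha'0 ha0)
    (fun φ => by
      rw [map_div₀]
      exact div_pos (hpos a' _ hsu ha'2 φ) (hpos a _ hu ha φ))
    (fun v => by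
      rcases hst v with h | h
      · obtain ⟨P, hP⟩ := Pool.Agent.TeamU.b2_exists_over (E := H) v
        have hU := h P hP v hP
        obtain ⟨n, hn⟩ := even_aux hu P
        obtain ⟨m, hm⟩ := even_aux hsu P
        rw [← ha, hU] at hn
        rw [← ha'2, hU] at hm
        refine ⟨m - n, ?_⟩
        rw [map_div₀, hn, hm, ← WithZero.exp_sub, mul_sub]
      · refine ⟨0, ?_⟩
        rw [map_div₀, h σ a a' ha', div_self ((Valuation.ne_zero_iff _).2 ha0)]
        simp)
  have hb0 : b ≠ 0 := fun h => by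
    rw [h] at hb
    have : a' / a = 0 := by rw [← hb]; ring
    exact div_ne_zero ha'0 ha0 this
  have hB : (algebraMap F H b) ^ 2 * algebraMap F H a = algebraMap F H a' := by
    rw [← map_pow, hb, ← map_mul, div_mul_cancel₀ _ ha0]
  have hB0 : algebraMap F H b ≠ 0 := (map_ne_zero _).2 hb0
  have hcB : c (algebraMap F H b) = algebraMap F H b := (hfix _).2 ⟨b, rfl⟩
  have hsz : σ (1 + u) ≠ 0 := (map_ne_zero_iff σ σ.injective).2 hz
  have hsu0 : σ u ≠ 0 := (map_ne_zero_iff σ σ.injective).2 hu0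
  have e1 : (1 + u) ^ 2 = u * algebraMap F H a := by
    rw [ha]
    field_simp
    ring
  have e2 : (σ (1 + u)) ^ 2 = σ u * algebraMap F H a' := by
    rw [ha', ← map_pow, e1, map_mul]
  have hA0 : algebraMap F H a ≠ 0 := (map_ne_zero _).2 ha0
  have hA'0 : algebraMap F H a' ≠ 0 := (map_ne_zero _).2 ha'0
  have hsq : (σ (1 + u) / (1 + u) / algebraMap F H b) ^ 2 * u = σ u := by
    rw [div_pow, div_pow, e1, e2, ← hB]
    field_simp
  refine ⟨σ (1 + u) / (1 + u) / algebraMap F H b, ?_, hsq, ?_⟩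
  · have hne : σ (1 + u) / (1 + u) / algebraMap F H b ≠ 0 :=
      div_ne_zero (div_ne_zero hsz hz) hB0
    have h3 : (σ (1 + u) / (1 + u) / algebraMap F H b) ^ 2 = σ u * u⁻¹ := by
      rw [← hsq]
      field_simp
    have h4 : IsUnt (σ u * u⁻¹) := hsu.1.mul hu.1.inv
    refine ⟨hne, ?_, ?_⟩
    · refine IsIntegral.of_pow (n := 2) (by norm_num) ?_
      rw [h3]
      exact h4.2.1
    · refine IsIntegral.of_pow (n := 2) (by norm_num) ?_
      rw [inv_pow, h3]
      exact h4.2.2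
  · rw [map_div₀, map_div₀, hcx, hcB, hcz]
    have e3 : σ (1 + u⁻¹) * σ u = σ (1 + u) := by
      rw [← map_mul]
      congr 1
      field_simp
      ring
    have e4 : (1 + u⁻¹) * u = 1 + u := by
      field_simp
      ring
    have h5 : σ (1 + u⁻¹) = σ (1 + u) / σ u := by rw [← e3]; field_simp
    have h6 : (1 + u⁻¹) = (1 + u) / u := by rw [← e4]; field_simp
    rw [h5, h6]
    rw [eq_comm, inv_eq_iff_eq_inv]
    have h7 : (σ (1 + u)) ^ 2 * u = (algebraMap F H b) ^ 2 * (1 + u) ^ 2 * σ u := by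
      rw [e1, e2, ← hB]
      ring
    field_simp
    linear_combination h7

end Pool.Agent.L7h62.SQ
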