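import Pool.Agent.L7h62.SQ.Stm

/-!
# Project SQ: the unit group inverted by `c`, signatures, and the alternative `u, v, u v`
-/

set_option autoImplicit false

namespace Pool.Agent.L7h62.SQ

open Module

section units

variable {H : Type} [Field H]

theorem IsUnt.mul {x y : H} (hx : IsUnt x) (hy : IsUnt y) : IsUnt (x * y) :=
  ⟨mul_ne_zero hx.1 hy.1, hx.2.1.mul hy.2.1, by rw [mul_inv]; exact hx.2.2.mul hy.2.2⟩

theorem IsUnt.inv {x : H} (hx : IsUnt x) : IsUnt x⁻¹ :=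
  ⟨inv_ne_zero hx.1, hx.2.2, by rw [inv_inv]; exact hx.2.1⟩

theorem isUnt_one : IsUnt (1 : H) :=
  ⟨one_ne_zero, isIntegral_one, by rw [inv_one]; exact isIntegral_one⟩

theorem isUnt_neg_one : IsUnt (-1 : H) :=
  ⟨neg_ne_zero.2 one_ne_zero, isIntegral_one.neg, by rw [inv_neg, inv_one]; exact isIntegral_one.neg⟩

theorem IsUnt.map {K : Type} [Field K] [Algebra K H] {x : H} (hx : IsUnt x) (σ : H ≃ₐ[K] H) :
    IsUnt (σ x) := by
  have hmap : ∀ y : H, IsIntegral ℤ y → IsIntegral ℤ (σ y) := fun y hy =>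
    map_isIntegral_int (σ : H →+* H) hy
  exact ⟨(map_ne_zero_iff σ σ.injective).2 hx.1, hmap _ hx.2.1, by
    rw [← map_inv₀]; exact hmap _ hx.2.2⟩

theorem IsUnt.prod {ι : Type} (s : Finset ι) (f : ι → H) (h : ∀ i ∈ s, IsUnt (f i)) :
    IsUnt (∏ i ∈ s, f i) := by
  classical
  induction s using Finset.induction_on with
  | empty => simpa using isUnt_one
  | insert a s ha ih =>
      rw [Finset.prod_insert ha]
      exact (h a (Finset.mem_insert_self _ _)).mul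
        (ih fun i hi => h i (Finset.mem_insert_of_mem hi))

end units

/-- The sign of a nonzero real number. -/
noncomputable def sg (r : ℝ) : ℤˣ := if 0 < r then 1 else -1

theorem sg_pos {r : ℝ} (h : 0 < r) : sg r = 1 := if_pos h

theorem sg_neg {r : ℝ} (h : r < 0) : sg r = -1 := if_neg (not_lt.2 h.le)

theorem sg_mul {a b : ℝ} (ha : a ≠ 0) (hb : b ≠ 0) : sg (a * b) = sg a * sg b := by
  rcases lt_or_gt_of_ne ha with h1 | h1 <;> rcases lt_or_gt_of_ne hb with h2 | h2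
  · rw [sg_neg h1, sg_neg h2, sg_pos (mul_pos_of_neg_of_neg h1 h2)]; rfl
  · rw [sg_neg h1, sg_pos h2, sg_neg (mul_neg_of_neg_of_pos h1 h2)]; rfl
  · rw [sg_pos h1, sg_neg h2, sg_neg (mul_neg_of_pos_of_neg h1 h2)]; rfl
  · rw [sg_pos h1, sg_pos h2, sg_pos (mul_pos h1 h2)]; rfl

theorem sg_eq_one {r : ℝ} (h : sg r = 1) : 0 < r := by
  by_contra hr
  rw [sg, if_neg hr] at h
  exact absurd h (by decide)

theorem sg_inv {a : ℝ} (ha : a ≠ 0) : sg a⁻¹ = sg a := by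
  rcases lt_or_gt_of_ne ha with h1 | h1
  · rw [sg_neg h1, sg_neg (inv_lt_zero.2 h1)]
  · rw [sg_pos h1, sg_pos (inv_pos.2 h1)]

theorem sg_prod {ι : Type} (s : Finset ι) (f : ι → ℝ) (h : ∀ i ∈ s, f i ≠ 0) :
    sg (∏ i ∈ s, f i) = ∏ i ∈ s, sg (f i) := by
  classical
  induction s using Finset.induction_on with
  | empty => simp [sg]
  | insert a s ha ih =>
      rw [Finset.prod_insert ha, Finset.prod_insert ha, sg_mul (h a (Finset.mem_insert_self _ _))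
        (Finset.prod_ne_zero_iff.2 fun i hi => h i (Finset.mem_insert_of_mem hi)),
        ih fun i hi => h i (Finset.mem_insert_of_mem hi)]

variable {K H : Type} [Field K] [Field H] [Algebra K H]

/-- Units of `H` inverted by `c`. -/
def Um (c : H ≃ₐ[K] H) : Subgroup Hˣ where
  carrier := {x | IsUnt (x : H) ∧ c (x : H) = (x : H)⁻¹}
  one_mem' := ⟨by simpa using isUnt_one, by simp⟩
  mul_mem' := by
    rintro x y ⟨h1, h2⟩ ⟨h3, h4⟩
    exact ⟨by rw [Units.val_mul]; exact h1.mul h3, by rw [Units.val_mul, map_mul, h2, h4, mul_inv]⟩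
  inv_mem' := by
    rintro x ⟨h1, h2⟩
    exact ⟨by rw [Units.val_inv_eq_inv_val]; exact h1.inv,
      by rw [Units.val_inv_eq_inv_val, map_inv₀, h2]⟩

/-- The signature of an element of `Um c` at the embeddings `e ∘ σ`, `σ ∈ T`. -/
noncomputable def sgh (c : H ≃ₐ[K] H) (e : H →+* ℝ) (T : Set (H ≃ₐ[K] H)) : Um c →* (T → ℤˣ) where
  toFun x σ := sg (e ((σ : H ≃ₐ[K] H) ((x : Hˣ) : H)))
  map_one' := by
    funext σ
    simp [sg]
  map_mul' x y := by
    funext σ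
    have h : ∀ z : Hˣ, e ((σ : H ≃ₐ[K] H) (z : H)) ≠ 0 := fun z => by
      rw [Ne, map_eq_zero, map_eq_zero_iff _ (σ : H ≃ₐ[K] H).injective]
      exact z.ne_zero
    simp only [Subgroup.coe_mul, Units.val_mul, map_mul, Pi.mul_apply]
    exact sg_mul (h _) (h _)

/-- Some unit of `H` is negative at `e` and positive at the other embeddings `e ∘ σ`. -/
def OneNeg (K : Type) {H : Type} [Field K] [Field H] [Algebra K H] (e : H →+* ℝ) : Prop :=
  ∃ η : H, IsUnt η ∧ e η < 0 ∧ ∀ σ : H ≃ₐ[K] H, σ ≠ 1 → 0 < e (σ η)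

/-- Some unit `η` of `H` with `c η = η⁻¹` is negative at `e` and `e ∘ c` and positive at the other
embeddings `e ∘ σ`. -/
def TwoNeg {K H : Type} [Field K] [Field H] [Algebra K H] (e : H →+* ℝ) (c : H ≃ₐ[K] H) : Prop :=
  ∃ η : H, IsUnt η ∧ c η = η⁻¹ ∧ e η < 0 ∧ ∀ σ : H ≃ₐ[K] H, σ ≠ 1 → σ ≠ c → 0 < e (σ η)

theorem OneNeg.twoNeg {c : H ≃ₐ[K] H} (hcc : ∀ x, c (c x) = x) (h1 : c ≠ 1) {e : H →+* ℝ}
    (h : OneNeg K e) : TwoNeg e c := by
  obtain ⟨η, h2, h3, h4⟩ := h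
  refine ⟨η / c η, ?_, ?_, ?_, fun σ hσ hc => ?_⟩
  · rw [div_eq_mul_inv]
    exact h2.mul (h2.map c).inv
  · rw [map_div₀, hcc, inv_div]
  · rw [map_div₀]
    exact div_neg_of_neg_of_pos h3 (h4 c h1)
  · rw [map_div₀, map_div₀]
    refine div_pos (h4 σ hσ) (h4 (σ * c) fun h => hc ?_)
    have hc2 : c * c = 1 := AlgEquiv.ext fun x => hcc x
    calc σ = σ * c * c := by rw [mul_assoc, hc2, mul_one]
      _ = c := by rw [h, one_mul]

theorem sgh_surj [IsAbelianGalois K H] [FiniteDimensional K H] (c : H ≃ₐ[K] H)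
    (e : H →+* ℝ) (hS : TwoNeg e c)
    (T : Set (H ≃ₐ[K] H)) (hT : ∀ σ ∈ T, c * σ ∉ T) :
    Function.Surjective (sgh c e T) := by
  classical
  obtain ⟨η, hη, hcη, hn, hp⟩ := hS
  have hcomm : ∀ σ τ : H ≃ₐ[K] H, σ * τ = τ * σ := fun σ τ => mul_comm' σ τ
  intro t
  let S : Finset T := Finset.univ.filter fun σ => t σ = -1
  let y : T → H := fun σ => (σ : H ≃ₐ[K] H)⁻¹ η
  have hy : ∀ σ, IsUnt (y σ) := fun σ => hη.map _
  have hcy : ∀ σ, c (y σ) = (y σ)⁻¹ := fun σ => by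
    simp only [y]
    rw [← AlgEquiv.mul_apply, hcomm, AlgEquiv.mul_apply, hcη, map_inv₀]
  let x : H := ∏ σ ∈ S, y σ
  have hx : IsUnt x := IsUnt.prod _ _ fun σ _ => hy σ
  have hcx : c x = x⁻¹ := by
    simp only [x, map_prod, hcy, Finset.prod_inv_distrib]
  refine ⟨⟨Units.mk0 x hx.1, hx, hcx⟩, ?_⟩
  funext ρ
  show sg (e ((ρ : H ≃ₐ[K] H) x)) = t ρ
  have key : ∀ σ : T, sg (e ((ρ : H ≃ₐ[K] H) (y σ))) = if σ = ρ then -1 else 1 := fun σ => by
    have e1 : (ρ : H ≃ₐ[K] H) (y σ) = ((ρ : H ≃ₐ[K] H) * (σ : H ≃ₐ[K] H)⁻¹) η := rfl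
    rw [e1]
    by_cases h : σ = ρ
    · subst h
      rw [if_pos rfl, mul_inv_cancel]
      exact sg_neg hn
    · rw [if_neg h]
      refine sg_pos (hp _ (fun h' => ?_) fun h' => ?_)
      · rw [mul_inv_eq_one] at h'
        exact h (Subtype.ext h'.symm)
      · have h3 : (ρ : H ≃ₐ[K] H) = c * σ := by
          rw [← h', inv_mul_cancel_right]
        exact hT σ σ.2 (h3 ▸ ρ.2)
  simp only [x, map_prod]
  rw [sg_prod _ _ fun σ _ => by
    rw [Ne, map_eq_zero, map_eq_zero_iff _ (ρ : H ≃ₐ[K] H).injective]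
    exact (hy σ).1]
  simp only [key]
  rw [Finset.prod_ite_eq' S ρ]
  have hmem : ρ ∈ S ↔ t ρ = -1 := by simp [S]
  by_cases h : t ρ = -1
  · rw [if_pos (hmem.2 h), h]
  · rw [if_neg fun h' => h (hmem.1 h')]
    rcases Int.units_eq_one_or (t ρ) with h' | h'
    · exact h'.symm
    · exact absurd h' h

end Pool.Agent.L7h62.SQ
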