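import Pool.Agent.L7h62.SQ.Main1

/-!
# Project SQ: one of `u`, `v`, `u v` is a square
-/

set_option autoImplicit false

namespace Pool.Agent.L7h62.SQ

open Module

variable {K H : Type} [Field K] [NumberField K] [Field H] [NumberField H] [Algebra K H]

/-- A half system for multiplication by an element of order two. -/
theorem half_system {G : Type} [Group G] [Finite G] (c : G) (hc : c * c = 1) (h1 : c ≠ 1) :
    ∃ T : Set G, T.Nonempty ∧ (∀ σ ∈ T, c * σ ∉ T) ∧ ∀ σ, σ ∉ T → c * σ ∈ T := by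
  classical
  haveI := Fintype.ofFinite G
  let f := Fintype.equivFin G
  have hcc : ∀ σ : G, c * (c * σ) = σ := fun σ => by rw [← mul_assoc, hc, one_mul]
  have hne : ∀ σ : G, f (c * σ) ≠ f σ := fun σ h => by
    have := f.injective h
    exact h1 (mul_eq_right.1 this)
  refine ⟨{σ | f σ < f (c * σ)}, ?_, ?_, ?_⟩
  · rcases lt_or_gt_of_ne (hne 1) with h | h
    · exact ⟨c * 1, by show f (c * 1) < f (c * (c * 1)); rw [hcc]; exact h⟩
    · exact ⟨1, h⟩
  · intro σ hσ h
    have h' : f (c * σ) < f (c * (c * σ)) := h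
    rw [hcc] at h'
    exact absurd h' (not_lt.2 (le_of_lt hσ))
  · intro σ hσ
    have h' : f (c * σ) < f σ := lt_of_le_of_ne (not_lt.1 hσ) (hne σ)
    show f (c * σ) < f (c * (c * σ))
    rwa [hcc]

/-- All data of the two real places of `K`. -/
structure Emb (K H : Type) [Field K] [NumberField K] [Field H] [NumberField H] [Algebra K H]
    (φ₂ : K →+* ℝ) (e : H →+* ℝ) (c : H ≃ₐ[K] H) : Prop where
  all : ∀ g : H →+* ℂ, (∃ σ : H ≃ₐ[K] H, ∀ x, g x = ((e (σ x) : ℝ) : ℂ)) ∨ Over φ₂ g
  cc : ∀ x, c (c x) = x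
  norm : ∀ u : H, u ≠ 0 → ((∀ g : H →+* ℂ, Over φ₂ g → ‖g u‖ = 1) ↔ c u = u⁻¹)

theorem altern (hL : S_LAT) (hI : S_IDX) [IsAbelianGalois K H]
    (φ₂ : K →+* ℝ) (e : H →+* ℝ) (c : H ≃ₐ[K] H)
    (hE : Emb K H φ₂ e c) (hS : c ≠ 1 → TwoNeg e c) (u v : H) (hu : StarkLike (K := K) φ₂ e u)
    (hv : StarkLike (K := K) φ₂ e v) :
    (∃ x : H, IsUnt x ∧ c x = x⁻¹ ∧ x ^ 2 = u) ∨ (∃ x : H, IsUnt x ∧ c x = x⁻¹ ∧ x ^ 2 = v) ∨
      ∃ x : H, IsUnt x ∧ c x = x⁻¹ ∧ x ^ 2 = u * v := by
  classical
  have hcomm : ∀ σ τ : H ≃ₐ[K] H, σ * τ = τ * σ := fun σ τ => mul_comm' σ τ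
  have hc2 : c * c = 1 := AlgEquiv.ext fun x => hE.cc x
  have hcu := (hE.norm u hu.1.1).1 hu.2.2
  have hcv := (hE.norm v hv.1.1).1 hv.2.2
  by_cases h1 : c = 1
  · -- `u = u⁻¹`, so `u = 1`
    left
    have h2 : u * u = 1 := by
      have : u = u⁻¹ := by rw [← hcu, h1]; rfl
      nth_rw 2 [this]
      exact mul_inv_cancel₀ hu.1.1
    have h3 : u = 1 := by
      rcases mul_self_eq_one_iff.1 h2 with h | h
      · exact h
      · have := hu.2.1 1
        rw [h, AlgEquiv.one_apply, map_neg, map_one] at this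
        linarith
    exact ⟨1, isUnt_one, by simp, by rw [h3, one_pow]⟩
  · obtain ⟨T, hTn, hT1, hT2⟩ := half_system c hc2 h1
    haveI : Nonempty T := hTn.to_subtype
    let s := sgh c e T
    have hs : Function.Surjective s := sgh_surj c e (hS h1) T hT1
    have hene : ∀ (σ : H ≃ₐ[K] H) (x : Hˣ), e (σ x) ≠ 0 := fun σ x => by
      rw [Ne, map_eq_zero, map_eq_zero_iff _ σ.injective]
      exact x.ne_zero
    let z : Um c := ⟨-1, by simpa using isUnt_neg_one, by simp⟩
    have hz : ∀ i, s z i = -1 := fun i => by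
      show sg (e ((i : H ≃ₐ[K] H) (((-1 : Hˣ)) : H))) = -1
      rw [Units.val_neg, Units.val_one, map_neg, map_one, map_neg, map_one]
      exact sg_neg (by norm_num)
    have hz2 : z ^ 2 = 1 := by
      apply Subtype.ext
      apply Units.ext
      simp [z]
    have hz1 : ∀ x : Um c, x ^ 2 = 1 → x = 1 ∨ x = z := fun x hx => by
      have h2 : (((x : Hˣ) : H)) * ((x : Hˣ) : H) = 1 := by
        have := congrArg (fun t : Um c => ((t : Hˣ) : H)) hx
        simpa [sq] using this
      rcases mul_self_eq_one_iff.1 h2 with h | h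
      · left
        apply Subtype.ext
        apply Units.ext
        simpa using h
      · right
        apply Subtype.ext
        apply Units.ext
        simpa [z] using h
    -- positivity at all embeddings above the first place
    have hinv : ∀ (x : Um c) (σ : H ≃ₐ[K] H), e ((c * σ) ((x : Hˣ) : H)) =
        (e (σ ((x : Hˣ) : H)))⁻¹ := fun x σ => by
      rw [hcomm, AlgEquiv.mul_apply, x.2.2, map_inv₀, map_inv₀]
    let l : s.ker → T → ℝ := fun a i =>
      Real.log (e ((i : H ≃ₐ[K] H) (((a : Um c) : Hˣ) : H)))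
    have hpos : ∀ (a : s.ker) (σ : H ≃ₐ[K] H), σ ∈ T → 0 < e (σ (((a : Um c) : Hˣ) : H)) :=
      fun a σ hσ => sg_eq_one (congrFun (MonoidHom.mem_ker.1 a.2) ⟨σ, hσ⟩)
    have hLat := hL s.ker T l
      (fun a b i => by
        simp only [l, Subgroup.coe_mul, Units.val_mul, map_mul]
        exact Real.log_mul (hene _ _) (hene _ _))
      (fun a ha => by
        obtain ⟨i⟩ := (inferInstance : Nonempty T)
        have h2 := Real.eq_one_of_pos_of_log_eq_zero (hpos a i i.2) (ha i)
        have h3 : (((a : Um c) : Hˣ) : H) = 1 := by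
          have h4 : e ((i : H ≃ₐ[K] H) (((a : Um c) : Hˣ) : H)) =
              e ((i : H ≃ₐ[K] H) 1) := by rw [h2, map_one, map_one]
          exact (i : H ≃ₐ[K] H).injective (e.injective h4)
        apply Subtype.ext
        apply Subtype.ext
        apply Units.ext
        exact h3)
      (fun B => by
        have hfin := NumberField.Embeddings.finite_of_norm_le H ℂ (Real.exp |B|)
        refine Set.Finite.of_injOn (f := fun a : s.ker => (((a : Um c) : Hˣ) : H)) ?_ ?_ hfin
        · intro a ha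
          refine ⟨(a : Um c).2.1.2.1, fun g => ?_⟩
          have hbd : ∀ r : ℝ, 0 < r → |Real.log r| ≤ B → r ≤ Real.exp |B| := fun r hr hl => by
            have h5 : Real.log r ≤ |B| := (le_abs_self _).trans (hl.trans (le_abs_self B))
            calc r = Real.exp (Real.log r) := (Real.exp_log hr).symm
              _ ≤ Real.exp |B| := Real.exp_le_exp.2 h5
          rcases hE.all g with ⟨σ, hσ⟩ | hg
          · rw [hσ, Complex.norm_real, Real.norm_eq_abs]
            by_cases hT : σ ∈ T
            · rw [abs_of_pos (hpos a σ hT)]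
              exact hbd _ (hpos a σ hT) (ha ⟨σ, hT⟩)
            · have h6 := hT2 σ hT
              have h7 := hinv (a : Um c) σ
              have h8 := hpos a _ h6
              have h9 := ha ⟨c * σ, h6⟩
              simp only [l] at h9
              rw [h7] at h8 h9
              rw [Real.log_inv, abs_neg] at h9
              have h10 := inv_pos.1 h8
              rw [abs_of_pos h10]
              exact hbd _ h10 h9
          · have := (hE.norm _ (Units.ne_zero _)).2 (a : Um c).2.2 g hg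
            rw [this]
            exact Real.one_le_exp (abs_nonneg _)
        · intro a _ b _ hab
          apply Subtype.ext
          apply Subtype.ext
          apply Units.ext
          exact hab)
    have hker : ∀ (x : H) (hx : StarkLike (K := K) φ₂ e x) (hcx : c x = x⁻¹),
        s ⟨Units.mk0 x hx.1.1, hx.1, hcx⟩ = 1 := fun x hx hcx => by
      funext i
      exact sg_pos (hx.2.1 i)
    have hfin := hI (Um c) T s hs z hz hz1 hz2 hLat.1 hLat.2
      ⟨Units.mk0 u hu.1.1, hu.1, hcu⟩ ⟨Units.mk0 v hv.1.1, hv.1, hcv⟩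
      (hker u hu hcu) (hker v hv hcv)
    have hback : ∀ (y : H) (x : Um c), (((x ^ 2 : Um c) : Hˣ) : H) = y →
        ∃ x : H, IsUnt x ∧ c x = x⁻¹ ∧ x ^ 2 = y := fun y x hxy =>
      ⟨((x : Hˣ) : H), x.2.1, x.2.2, by rw [← hxy]; simp⟩
    rcases hfin with ⟨x, hx⟩ | ⟨x, hx⟩ | ⟨x, hx⟩
    · exact Or.inl (hback u x (by rw [hx]; rfl))
    · exact Or.inr (Or.inl (hback v x (by rw [hx]; rfl)))
    · exact Or.inr (Or.inr (hback (u * v) x (by rw [hx]; rfl)))

end Pool.Agent.L7h62.SQ
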