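import Pool.Agent.L7h62.SQ.Main2
import Pool.Agent.Y682.NCl

/-!
# Project SQ: `σ(u)/u` is a square, units with negative norm in 2-extensions, the theorem
-/

set_option autoImplicit false

namespace Pool.Agent.L7h62.SQ

open Module

variable {K H : Type} [Field K] [NumberField K] [Field H] [NumberField H] [Algebra K H]

theorem StarkLike.map {φ₂ : K →+* ℝ} {e : H →+* ℝ} {u : H} (hu : StarkLike φ₂ e u)
    (σ : H ≃ₐ[K] H) : StarkLike φ₂ e (σ u) := by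
  refine ⟨hu.1.map σ, fun τ => hu.2.1 (τ * σ), fun g hg => ?_⟩
  exact hu.2.2 (g.comp (σ : H →+* H)) fun x => by
    rw [RingHom.comp_apply]
    have : (σ : H →+* H) (algebraMap K H x) = algebraMap K H x := σ.commutes x
    rw [this]
    exact hg x

theorem squares (hL : S_LAT) (hI : S_IDX) [IsAbelianGalois K H]
    (φ₂ : K →+* ℝ) (e : H →+* ℝ) (c : H ≃ₐ[K] H)
    (hE : Emb K H φ₂ e c) (hS : c ≠ 1 → TwoNeg e c) (u : H) (hu : StarkLike (K := K) φ₂ e u)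
    (σ : H ≃ₐ[K] H) : ∃ a : H, IsUnt a ∧ a ^ 2 * u = σ u ∧ c a = a⁻¹ := by
  have hcomm : ∀ σ τ : H ≃ₐ[K] H, σ * τ = τ * σ := fun σ τ => mul_comm' σ τ
  have hcx : ∀ (τ : H ≃ₐ[K] H) (x : H), c (τ x) = τ (c x) := fun τ x => by
    rw [← AlgEquiv.mul_apply, hcomm, AlgEquiv.mul_apply]
  have hcu := (hE.norm u hu.1.1).1 hu.2.2
  have hu0 := hu.1.1
  -- from a square root `x` of `u`
  have main : ∀ x : H, IsUnt x → c x = x⁻¹ → x ^ 2 = u →
      ∃ a : H, IsUnt a ∧ a ^ 2 * u = σ u ∧ c a = a⁻¹ := fun x hx hc hxu => by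
    refine ⟨σ x / x, ?_, ?_, ?_⟩
    · rw [div_eq_mul_inv]
      exact (hx.map σ).mul hx.inv
    · rw [← hxu, map_pow, div_pow, div_mul_cancel₀ _ (pow_ne_zero 2 hx.1)]
    · rw [map_div₀, hcx, hc, map_inv₀, inv_div, inv_div_inv]
  rcases altern hL hI φ₂ e c hE hS u (σ u) hu (hu.map σ) with ⟨x, h1, h2, h3⟩ | ⟨x, h1, h2, h3⟩ |
    ⟨x, h1, h2, h3⟩
  · exact main x h1 h2 h3
  · refine main (σ.symm x) (h1.map σ.symm) ?_ ?_
    · rw [hcx, h2, map_inv₀]
    · rw [← map_pow, h3, AlgEquiv.symm_apply_apply]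
  · refine ⟨x / u, ?_, ?_, ?_⟩
    · rw [div_eq_mul_inv]
      exact h1.mul hu.1.inv
    · rw [div_pow, h3]
      field_simp
    · rw [map_div₀, h2, hcu, inv_div_inv, inv_div]

/-- The parity of the number of minus signs. -/
theorem prod_neg_iff {ι : Type} (s : Finset ι) (f : ι → ℝ) (h : ∀ i ∈ s, f i ≠ 0) :
    (∏ i ∈ s, f i < 0) ↔ (∑ i ∈ s, (if f i < 0 then 1 else 0 : ZMod 2)) = 1 := by
  classical
  induction s using Finset.induction_on with
  | empty => simp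
  | insert a s ha ih =>
      rw [Finset.prod_insert ha, Finset.sum_insert ha]
      have h1 := ih fun i hi => h i (Finset.mem_insert_of_mem hi)
      have h2 := h a (Finset.mem_insert_self _ _)
      have h3 : ∏ i ∈ s, f i ≠ 0 :=
        Finset.prod_ne_zero_iff.2 fun i hi => h i (Finset.mem_insert_of_mem hi)
      have hz : ∀ y : ZMod 2, y ≠ 1 → y = 0 := by decide
      have hz2 : ∀ y : ZMod 2, 1 + y = 1 ↔ y ≠ 1 := by decide
      rcases lt_or_gt_of_ne h2 with h4 | h4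
      · rw [if_pos h4, hz2, Ne, ← h1, not_lt]
        constructor
        · intro h5
          by_contra h6
          rw [not_le] at h6
          exact absurd (mul_pos_of_neg_of_neg h4 h6) (not_lt.2 h5.le)
        · intro h5
          exact mul_neg_of_neg_of_pos h4 (lt_of_le_of_ne h5 h3.symm)
      · rw [if_neg (not_lt.2 h4.le), zero_add, ← h1]
        constructor
        · intro h5
          by_contra h6
          rw [not_lt] at h6
          exact absurd h5 (not_lt.2 (mul_nonneg h4.le h6))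
        · intro h5
          exact mul_neg_of_pos_of_neg h4 h5

theorem oneNeg_of_norm (hG : S_GRI) [IsAbelianGalois K H] (φ₁ : K →+* ℝ) (e : H →+* ℝ)
    (he : ∀ x, e (algebraMap K H x) = φ₁ x) (k : ℕ) (hk : finrank K H = 2 ^ k)
    (η : H) (hη : IsUnt η) (hn : φ₁ (Algebra.norm K η) < 0) : OneNeg K e := by
  classical
  letI : CommGroup (H ≃ₐ[K] H) := { (inferInstance : Group (H ≃ₐ[K] H)) with
    mul_comm := fun σ τ => mul_comm' σ τ }
  have hne : ∀ τ : H ≃ₐ[K] H, e (τ η) ≠ 0 := fun τ => by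
    rw [Ne, map_eq_zero, map_eq_zero_iff _ τ.injective]
    exact hη.1
  have hcard : Fintype.card (H ≃ₐ[K] H) = 2 ^ k := by
    rw [← hk, ← Nat.card_eq_fintype_card]
    exact IsGalois.card_aut_eq_finrank K H
  have hsum : ∑ g : H ≃ₐ[K] H, (if e (g η) < 0 then 1 else 0 : ZMod 2) = 1 := by
    rw [← prod_neg_iff _ _ fun g _ => hne g, ← map_prod, ← Algebra.norm_eq_prod_automorphisms, he]
    exact hn
  obtain ⟨h, hh⟩ := hG (H ≃ₐ[K] H) k hcard _ hsum
  let S : Finset (H ≃ₐ[K] H) := Finset.univ.filter fun σ => h σ = 1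
  have hkey : ∀ g : H ≃ₐ[K] H, e (g (∏ σ ∈ S, σ η)) < 0 ↔ g = 1 := fun g => by
    have h1 : e (g (∏ σ ∈ S, σ η)) = ∏ σ ∈ S, e ((g * σ) η) := by
      rw [map_prod, map_prod]
      rfl
    rw [h1, prod_neg_iff _ _ fun σ _ => hne _]
    have h2 : ∑ σ ∈ S, (if e ((g * σ) η) < 0 then 1 else 0 : ZMod 2) =
        ∑ σ, h σ * (if e ((g * σ) η) < 0 then 1 else 0 : ZMod 2) := by
      rw [Finset.sum_filter]
      refine Finset.sum_congr rfl fun σ _ => ?_
      have hz : ∀ y : ZMod 2, y ≠ 1 → y = 0 := by decide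
      split_ifs with h3 h4 h4
      · rw [h3, one_mul]
      · rw [mul_zero]
      · rw [hz _ h3, zero_mul]
      · rw [mul_zero]
    rw [h2, hh g]
    split_ifs with h3
    · simp [h3]
    · simp [h3]
  refine ⟨∏ σ ∈ S, σ η, IsUnt.prod _ _ fun σ _ => hη.map σ, (hkey 1).2 rfl, fun σ hσ => ?_⟩
  have h5 : e (σ (∏ τ ∈ S, τ η)) ≠ 0 := by
    rw [Ne, map_eq_zero, map_eq_zero_iff _ σ.injective]
    exact (IsUnt.prod _ _ fun σ _ => hη.map σ).1
  exact lt_of_le_of_ne (not_lt.1 fun h6 => hσ ((hkey σ).1 h6)) h5.symm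

/-- The same for units inverted by `c`: the number of embeddings `e ∘ σ` at which the unit is
negative is even; if it is not divisible by four, then `TwoNeg` holds. -/
theorem twoNeg_of_count (hG : S_GRI) [IsAbelianGalois K H] (e : H →+* ℝ) (c : H ≃ₐ[K] H)
    (hcc : ∀ x, c (c x) = x) (h1 : c ≠ 1) (k : ℕ) (hk : finrank K H = 2 ^ k)
    (η : H) (hη : IsUnt η) (hcη : c η = η⁻¹)
    (hn : Nat.card {σ : H ≃ₐ[K] H // e (σ η) < 0} % 4 = 2) : TwoNeg e c := by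
  classical
  have hcomm : ∀ σ τ : H ≃ₐ[K] H, σ * τ = τ * σ := fun σ τ => mul_comm' σ τ
  have hc2 : c * c = 1 := AlgEquiv.ext fun x => hcc x
  let cg : CommGroup (H ≃ₐ[K] H) := { (inferInstance : Group (H ≃ₐ[K] H)) with
    mul_comm := hcomm }
  have hne : ∀ τ : H ≃ₐ[K] H, e (τ η) ≠ 0 := fun τ => by
    rw [Ne, map_eq_zero, map_eq_zero_iff _ τ.injective]
    exact hη.1
  have hcard : Fintype.card (H ≃ₐ[K] H) = 2 ^ k := by
    rw [← hk, ← Nat.card_eq_fintype_card]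
    exact IsGalois.card_aut_eq_finrank K H
  obtain ⟨T, -, hT1, hT2⟩ := half_system c hc2 h1
  have hcg : ∀ g : H ≃ₐ[K] H, e ((c * g) η) < 0 ↔ e (g η) < 0 := fun g => by
    rw [hcomm, AlgEquiv.mul_apply, hcη, map_inv₀, map_inv₀, inv_lt_zero]
  have hTc : ∀ g : H ≃ₐ[K] H, c * g ∈ T ↔ g ∉ T := fun g =>
    ⟨fun h h' => hT1 g h' h, hT2 g⟩
  have hcc' : ∀ g : H ≃ₐ[K] H, c * (c * g) = g := fun g => by rw [← mul_assoc, hc2, one_mul]
  -- the number of negative embeddings is twice the number of those in `T`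
  let A : Finset (H ≃ₐ[K] H) := Finset.univ.filter fun σ => e (σ η) < 0
  let B : Finset (H ≃ₐ[K] H) := A.filter fun σ => σ ∈ T
  let B' : Finset (H ≃ₐ[K] H) := A.filter fun σ => σ ∉ T
  have hA : Nat.card {σ : H ≃ₐ[K] H // e (σ η) < 0} = A.card := by
    rw [Nat.card_eq_fintype_card, Fintype.card_subtype]
  have hAB : A.card = B.card + B'.card := (Finset.card_filter_add_card_filter_not _).symm
  have hBB : B.card = B'.card := by
    refine Finset.card_bij (fun g _ => c * g) ?_ ?_ ?_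
    · intro g hg
      rw [Finset.mem_filter, Finset.mem_filter] at hg
      rw [Finset.mem_filter, Finset.mem_filter]
      exact ⟨⟨Finset.mem_univ _, (hcg g).2 hg.1.2⟩, hT1 g hg.2⟩
    · intro g _ g' _ h
      exact mul_left_cancel h
    · intro g hg
      rw [Finset.mem_filter, Finset.mem_filter] at hg
      exact ⟨c * g, by
        rw [Finset.mem_filter, Finset.mem_filter]
        exact ⟨⟨Finset.mem_univ _, (hcg g).2 hg.1.2⟩, hT2 g hg.2⟩, hcc' g⟩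
  have hodd : B.card % 2 = 1 := by omega
  let f : (H ≃ₐ[K] H) → ZMod 2 := fun g => if e (g η) < 0 ∧ g ∈ T then 1 else 0
  have hsum : ∑ g, f g = 1 := by
    have h2 : ∑ g, f g = ((B.card : ℕ) : ZMod 2) := by
      simp only [f]
      rw [Finset.sum_ite, Finset.sum_const_zero, add_zero, Finset.sum_const, nsmul_eq_mul, mul_one]
      congr 2
      ext g
      simp [B, A]
    rw [h2, ← ZMod.natCast_mod, hodd]
    rfl
  obtain ⟨h, hh⟩ := @hG (H ≃ₐ[K] H) cg _ _ k hcard f hsum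
  let S : Finset (H ≃ₐ[K] H) := Finset.univ.filter fun σ => h σ = 1
  have hff : ∀ g : H ≃ₐ[K] H, (if e (g η) < 0 then 1 else 0 : ZMod 2) = f g + f (c * g) := fun g => by
    simp only [f, hcg, hTc]
    by_cases h2 : e (g η) < 0 <;> by_cases h3 : g ∈ T <;> simp [h2, h3]
  have hkey : ∀ g : H ≃ₐ[K] H, e (g (∏ σ ∈ S, σ η)) < 0 ↔ (g = 1 ∨ g = c) := fun g => by
    have h1' : e (g (∏ σ ∈ S, σ η)) = ∏ σ ∈ S, e ((g * σ) η) := by
      rw [map_prod, map_prod]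
      rfl
    rw [h1', prod_neg_iff _ _ fun σ _ => hne _]
    have h2 : ∑ σ ∈ S, (if e ((g * σ) η) < 0 then 1 else 0 : ZMod 2) =
        ∑ σ, h σ * (if e ((g * σ) η) < 0 then 1 else 0 : ZMod 2) := by
      rw [Finset.sum_filter]
      refine Finset.sum_congr rfl fun σ _ => ?_
      have hz : ∀ y : ZMod 2, y ≠ 1 → y = 0 := by decide
      split_ifs with h3 h4 h4
      · rw [h3, one_mul]
      · rw [mul_zero]
      · rw [hz _ h3, zero_mul]
      · rw [mul_zero]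
    have h3 : ∑ σ, h σ * (if e ((g * σ) η) < 0 then 1 else 0 : ZMod 2) =
        (if g = 1 then 1 else 0) + if c * g = 1 then 1 else 0 := by
      rw [← hh g, ← hh (c * g), ← Finset.sum_add_distrib]
      refine Finset.sum_congr rfl fun σ _ => ?_
      rw [hff, mul_add]
      rfl
    have h4 : c * g = 1 ↔ g = c := by
      constructor
      · intro h5
        rw [← hcc' g, h5, mul_one]
      · intro h5
        rw [h5, hc2]
    rw [h2, h3, if_congr h4 rfl rfl]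
    by_cases h5 : g = 1
    · have h6 : ¬ g = c := fun h => h1 (h.symm.trans h5)
      rw [if_pos h5, if_neg h6]
      exact ⟨fun _ => Or.inl h5, fun _ => add_zero 1⟩
    · by_cases h6 : g = c
      · rw [if_neg h5, if_pos h6]
        exact ⟨fun _ => Or.inr h6, fun _ => zero_add 1⟩
      · rw [if_neg h5, if_neg h6]
        exact ⟨fun h => absurd h (by decide), fun h => h.elim (fun h => absurd h h5)
          fun h => absurd h h6⟩
  refine ⟨∏ σ ∈ S, σ η, IsUnt.prod _ _ fun σ _ => hη.map σ, ?_, (hkey 1).2 (Or.inl rfl),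
    fun σ hσ hσc => ?_⟩
  · rw [map_prod, ← Finset.prod_inv_distrib]
    refine Finset.prod_congr rfl fun σ _ => ?_
    rw [← AlgEquiv.mul_apply, hcomm, AlgEquiv.mul_apply, hcη, map_inv₀]
  · have h5 : e (σ (∏ τ ∈ S, τ η)) ≠ 0 := by
      rw [Ne, map_eq_zero, map_eq_zero_iff _ σ.injective]
      exact (IsUnt.prod _ _ fun σ _ => hη.map σ).1
    refine lt_of_le_of_ne (not_lt.1 fun h6 => ?_) h5.symm
    rcases (hkey σ).1 h6 with h7 | h7
    · exact hσ h7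
    · exact hσc h7

/-- If the narrow class number of `H` is odd, then all signatures are those of units. -/
theorem oneNeg_of_narrow (e : H →+* ℝ) (h : Odd (Nat.card (Pool.Agent.Y682.NCl H))) :
    OneNeg K e := by
  obtain ⟨u, hu⟩ := Pool.Agent.Y682.exists_unit_signs h {e}
  have hu0 : (algebraMap (NumberField.RingOfIntegers H) H) (u : NumberField.RingOfIntegers H) ≠ 0 := by
    have h1 := (hu e).1 rfl
    intro h2
    rw [h2, map_zero] at h1
    exact lt_irrefl _ h1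
  refine ⟨algebraMap (NumberField.RingOfIntegers H) H (u : NumberField.RingOfIntegers H),
    ⟨hu0, NumberField.RingOfIntegers.isIntegral_coe _, ?_⟩, (hu e).1 rfl, fun σ hσ => ?_⟩
  · have h1 : (algebraMap (NumberField.RingOfIntegers H) H (u : NumberField.RingOfIntegers H))⁻¹ =
        algebraMap (NumberField.RingOfIntegers H) H ((u⁻¹ : (NumberField.RingOfIntegers H)ˣ) :
          NumberField.RingOfIntegers H) := by
      refine inv_eq_of_mul_eq_one_right ?_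
      rw [← map_mul, Units.mul_inv, map_one]
    rw [h1]
    exact NumberField.RingOfIntegers.isIntegral_coe _
  · exact (hu (e.comp (σ : H →+* H))).2 fun h2 => hσ (AlgEquiv.ext fun x => by
      have h3 : e (σ x) = e x := congrArg (fun g : H →+* ℝ => g x) h2
      exact e.injective h3)

/-- Sign conditions for the units of `H` (any of five). -/
def SignCondition {K H : Type} [Field K] [NumberField K] [Field H] [NumberField H] [Algebra K H]
    (φ₁ : K →+* ℝ) (e : H →+* ℝ) (c : H ≃ₐ[K] H) : Prop :=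
  Odd (Nat.card (Pool.Agent.Y682.NCl H)) ∨
  (∃ η : H, IsUnt η ∧ e η < 0 ∧ ∀ σ : H ≃ₐ[K] H, σ ≠ 1 → 0 < e (σ η)) ∨
  (∃ η : H, IsUnt η ∧ c η = η⁻¹ ∧ e η < 0 ∧ ∀ σ : H ≃ₐ[K] H, σ ≠ 1 → σ ≠ c → 0 < e (σ η)) ∨
  ((∃ k : ℕ, finrank K H = 2 ^ k) ∧ ∃ η : H, IsUnt η ∧ φ₁ (Algebra.norm K η) < 0) ∨
  ((∃ k : ℕ, finrank K H = 2 ^ k) ∧ ∃ η : H, IsUnt η ∧ c η = η⁻¹ ∧
    Nat.card {σ : H ≃ₐ[K] H // e (σ η) < 0} % 4 = 2)

theorem SignCondition.twoNeg (hG : S_GRI) [IsAbelianGalois K H] {φ₁ : K →+* ℝ} {e : H →+* ℝ}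
    (he : ∀ x, e (algebraMap K H x) = φ₁ x) {c : H ≃ₐ[K] H}
    (hcc : ∀ x, c (c x) = x) (h : SignCondition φ₁ e c) (h1 : c ≠ 1) : TwoNeg e c := by
  rcases h with h | h | h | ⟨⟨k, hk⟩, η, h2, h3⟩ | ⟨⟨k, hk⟩, η, h2, h3, h4⟩
  · exact (oneNeg_of_narrow e h).twoNeg hcc h1
  · exact OneNeg.twoNeg hcc h1 h
  · exact h
  · exact (oneNeg_of_norm hG φ₁ e he k hk η h2 h3).twoNeg hcc h1
  · exact twoNeg_of_count hG e c hcc h1 k hk η h2 h3 h4

/-- The units of Stark's conjecture for `H/K`, with the values `exp (-2 Z σ)`: units `ε σ` of `H`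
with `e (ε σ) = exp (-2 Z σ)`, `τ (ε σ) = ε (τ σ)` and absolute value one above `φ₂`. -/
structure StarkUnits (φ₂ : K →+* ℝ) (e : H →+* ℝ) (Z : (H ≃ₐ[K] H) → ℝ)
    (ε : (H ≃ₐ[K] H) → H) : Prop where
  unit : ∀ σ, IsUnt (ε σ)
  value : ∀ σ, e (ε σ) = Real.exp (-2 * Z σ)
  galois : ∀ σ τ : H ≃ₐ[K] H, τ (ε σ) = ε (τ * σ)
  abs_one : ∀ g : H →+* ℂ, Over φ₂ g → ∀ σ, ‖g (ε σ)‖ = 1

theorem StarkUnits.starkLike {φ₂ : K →+* ℝ} {e : H →+* ℝ} {Z : (H ≃ₐ[K] H) → ℝ}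
    {ε : (H ≃ₐ[K] H) → H} (h : StarkUnits φ₂ e Z ε) (σ : H ≃ₐ[K] H) :
    StarkLike φ₂ e (ε σ) :=
  ⟨h.unit σ, fun τ => by rw [h.galois, h.value]; exact Real.exp_pos _, fun g hg => h.abs_one g hg σ⟩

/-- The square roots of `u` generate abelian extensions of `K`. -/
def RootAbelian (K : Type) {H : Type} [Field K] [Field H] [Algebra K H] (u : H) : Prop :=
  ∀ (M : Type) [Field M] [Algebra H M] [Algebra K M] [IsScalarTower K H M] (α : M),
    α ^ 2 = algebraMap H M u → IntermediateField.adjoin H {α} = ⊤ → IsAbelianGalois K M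

theorem main (hL : S_LAT) (hI : S_IDX) (hG : S_GRI) (hE : S_EMB) (hA : S_ABL)
    (K H : Type) [Field K] [NumberField K] [Field H] [NumberField H] [Algebra K H]
    [IsAbelianGalois K H] (hK : finrank ℚ K = 2) (φ₁ φ₂ : K →+* ℝ) (hφ : φ₁ ≠ φ₂)
    (e : H →+* ℝ) (he : ∀ x, e (algebraMap K H x) = φ₁ x)
    (c : H ≃ₐ[K] H) (hc : IsConj φ₂ c)
    (hS : SignCondition φ₁ e c) :
    (∀ u v : H, StarkLike (K := K) φ₂ e u → StarkLike (K := K) φ₂ e v →
      ∃ x : H, IsUnt x ∧ c x = x⁻¹ ∧ (x ^ 2 = u ∨ x ^ 2 = v ∨ x ^ 2 = u * v)) ∧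
    (∀ u : H, StarkLike (K := K) φ₂ e u → ∀ σ : H ≃ₐ[K] H, ∃ a : H, IsUnt a ∧ a ^ 2 * u = σ u) ∧
    ((∃ σ₀ : H ≃ₐ[K] H, ∀ σ : H ≃ₐ[K] H, ∃ (ρ : H ≃ₐ[K] H) (i j : ℕ),
        σ = ρ ^ 2 * c ^ i * σ₀ ^ j) →
      (∀ u : H, StarkLike (K := K) φ₂ e u → RootAbelian K u) ∧
      ∀ (Z : (H ≃ₐ[K] H) → ℝ) (ε : (H ≃ₐ[K] H) → H), StarkUnits φ₂ e Z ε →
        ∀ σ, RootAbelian K (ε σ)) := by
  obtain ⟨ha, _, hb⟩ := hE K H hK φ₁ φ₂ hφ e he
  have hEmb : Emb K H φ₂ e c := ⟨ha, (hb c hc).1, (hb c hc).2⟩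
  have hS' : c ≠ 1 → TwoNeg e c := hS.twoNeg hG he (hb c hc).1
  have h3 : (∃ σ₀ : H ≃ₐ[K] H, ∀ σ : H ≃ₐ[K] H, ∃ (ρ : H ≃ₐ[K] H) (i j : ℕ),
      σ = ρ ^ 2 * c ^ i * σ₀ ^ j) → ∀ u : H, StarkLike (K := K) φ₂ e u → RootAbelian K u := by
    rintro ⟨σ₀, hσ₀⟩ u hu M _ _ _ _ α hα hM
    exact hA K H c σ₀ hσ₀ u hu.1.1 ((hEmb.norm u hu.1.1).1 hu.2.2)
      (fun σ => by
        obtain ⟨a, -, h1, h2⟩ := squares hL hI φ₂ e c hEmb hS' u hu σ
        exact ⟨a, h1, h2⟩) M α hα hM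
  refine ⟨fun u v hu hv => ?_, fun u hu σ => ?_, fun h => ⟨h3 h, fun Z ε hε σ =>
    h3 h _ (hε.starkLike σ)⟩⟩
  · rcases altern hL hI φ₂ e c hEmb hS' u v hu hv with ⟨x, h1, h2, h3⟩ | ⟨x, h1, h2, h3⟩ |
      ⟨x, h1, h2, h3⟩
    · exact ⟨x, h1, h2, Or.inl h3⟩
    · exact ⟨x, h1, h2, Or.inr (Or.inl h3)⟩
    · exact ⟨x, h1, h2, Or.inr (Or.inr h3)⟩
  · obtain ⟨a, h1, h2, -⟩ := squares hL hI φ₂ e c hEmb hS' u hu σ
    exact ⟨a, h1, h2⟩

end Pool.Agent.L7h62.SQ
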