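import Pool.Agent.L7h62.SQ.Fin

/-!
# Project SQ, second stage: the theorems for odd narrow class numbers
-/

set_option autoImplicit false

namespace Pool.Agent.L7h62.SQ

open Module NumberField IsDedekindDomain
open Pool.Agent.TeamU (Unr)

variable {K H : Type} [Field K] [NumberField K] [Field H] [NumberField H] [Algebra K H]

/-- The maximal subfield of `H` in which the place above `φ₂` is real: the fixed field of `c`. -/
noncomputable abbrev Plus (c : H ≃ₐ[K] H) : IntermediateField K H :=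
  IntermediateField.fixedField (Subgroup.zpowers c)

theorem mem_plus (c : H ≃ₐ[K] H) (x : H) : x ∈ Plus c ↔ c x = x := by
  rw [Plus, IntermediateField.mem_fixedField_iff]
  constructor
  · intro h
    exact h c (Subgroup.mem_zpowers c)
  · intro h f hf
    obtain ⟨n, rfl⟩ := Subgroup.mem_zpowers_iff.1 hf
    have h1 : c ∈ MulAction.stabilizer (H ≃ₐ[K] H) x := h
    exact (Subgroup.zpow_mem _ h1 n : c ^ n ∈ MulAction.stabilizer (H ≃ₐ[K] H) x)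

theorem fix_iff (c : H ≃ₐ[K] H) (x : H) : c x = x ↔ ∃ y : Plus c, algebraMap (Plus c) H y = x := by
  rw [← mem_plus]
  exact ⟨fun h => ⟨⟨x, h⟩, rfl⟩, fun ⟨y, hy⟩ => hy ▸ y.2⟩

theorem tReal_plus {φ₂ : K →+* ℝ} {e : H →+* ℝ} {c : H ≃ₐ[K] H} (hE : Emb K H φ₂ e c)
    (hc : IsConj φ₂ c) : TReal (Plus c) := fun g x => by
  obtain ⟨G, hG⟩ := exists_ext (Plus c) H g
  rw [← hG]
  exact hE.real hc _ ((fix_iff c _).2 ⟨x, rfl⟩) G

theorem tReal_base {φ₂ : K →+* ℝ} {e : H →+* ℝ} {c : H ≃ₐ[K] H} (hE : Emb K H φ₂ e c)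
    (hc : IsConj φ₂ c) : TReal K := fun g x => by
  obtain ⟨G, hG⟩ := exists_ext K H g
  rw [← hG]
  exact hE.real hc _ (c.commutes x) G

/-- The Galois group acts trivially on the primes of `H⁺` which are ramified in `H`. -/
def StableRam (c : H ≃ₐ[K] H) : Prop :=
  ∀ v : HeightOneSpectrum (𝓞 (Plus c)),
    (∀ P : HeightOneSpectrum (𝓞 H), Pool.Agent.TeamU.Over P v → Unr (Plus c) P) ∨
    ∀ (σ : H ≃ₐ[K] H) (a b : Plus c), algebraMap (Plus c) H b = σ (algebraMap (Plus c) H a) →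
      v.valuation (Plus c) b = v.valuation (Plus c) a

theorem general (hSEL : S_SEL) (hA : S_ABL) [IsAbelianGalois K H]
    (φ₂ : K →+* ℝ) (e : H →+* ℝ) (c : H ≃ₐ[K] H) (hE : Emb K H φ₂ e c) (hc : IsConj φ₂ c)
    (hN : Odd (Nat.card (Pool.Agent.Y682.NCl (Plus c)))) (hst : StableRam c) :
    (∀ u : H, StarkLike (K := K) φ₂ e u → ∀ σ : H ≃ₐ[K] H, ∃ a : H, IsUnt a ∧ a ^ 2 * u = σ u) ∧
    ((∃ σ₀ : H ≃ₐ[K] H, ∀ σ : H ≃ₐ[K] H, ∃ (ρ : H ≃ₐ[K] H) (i j : ℕ),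
        σ = ρ ^ 2 * c ^ i * σ₀ ^ j) →
      ∀ u : H, StarkLike (K := K) φ₂ e u → RootAbelian K u) := by
  have hF := fin K (Plus c) H φ₂ e c hE (fix_iff c)
    (hSEL (Plus c) (tReal_plus hE hc) hN) hst
  refine ⟨fun u hu σ => ?_, ?_⟩
  · obtain ⟨a, h1, h2, -⟩ := hF u hu σ
    exact ⟨a, h1, h2⟩
  · rintro ⟨σ₀, hσ₀⟩ u hu M _ _ _ _ α hα hM
    exact hA K H c σ₀ hσ₀ u hu.1.1 ((hE.norm u hu.1.1).1 hu.2.2)
      (fun σ => by
        obtain ⟨a, -, h1, h2⟩ := hF u hu σ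
        exact ⟨a, h1, h2⟩) M α hα hM

/-- `v` is the only prime above its restriction to `K`. -/
def Undecomposed (K : Type) {F : Type} [Field K] [NumberField K] [Field F] [NumberField F]
    [Algebra K F] (v : HeightOneSpectrum (𝓞 F)) : Prop :=
  ∀ (q : HeightOneSpectrum (𝓞 K)) (w : HeightOneSpectrum (𝓞 F)),
    Pool.Agent.TeamU.Over v q → Pool.Agent.TeamU.Over w q → w = v

theorem stable_of_undecomposed (hVAL : S_VAL) (c : H ≃ₐ[K] H) [IsAbelianGalois K H]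
    (v : HeightOneSpectrum (𝓞 (Plus c))) (hv : Undecomposed K v)
    (σ : H ≃ₐ[K] H) (a b : Plus c) (hab : algebraMap (Plus c) H b = σ (algebraMap (Plus c) H a)) :
    v.valuation (Plus c) b = v.valuation (Plus c) a := by
  obtain ⟨q, hq⟩ := Pool.Agent.TeamU.b2_exists_under (M := K) v
  obtain ⟨P', hP', hval⟩ := ((hVAL K (Plus c)).1 v q hq).2 (σ.restrictNormal (Plus c))
  rw [hv q P' hq hP'] at hval
  have h1 : b = σ.restrictNormal (Plus c) a := by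
    apply (algebraMap (Plus c) H).injective
    rw [hab, AlgEquiv.restrictNormal_commutes]
  rw [h1, ← hval]

/-- Generation of the Galois group, from the real subfield. -/
theorem gen_of_plus (hGRP : S_GRP) (hTWO : S_TWO) [IsAbelianGalois K H] (c : H ≃ₐ[K] H)
    (hcc : ∀ x, c (c x) = x) (hre : TReal (Plus c)) (hselK : Sel K) (p : HeightOneSpectrum (𝓞 K))
    (hpF : ∀ P : HeightOneSpectrum (𝓞 (Plus c)), Pool.Agent.TeamU.Over P p ∨ Unr K P) :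
    ∃ σ₀ : H ≃ₐ[K] H, ∀ σ : H ≃ₐ[K] H, ∃ (ρ : H ≃ₐ[K] H) (i j : ℕ),
      σ = ρ ^ 2 * c ^ i * σ₀ ^ j := by
  have hcomm : ∀ σ τ : H ≃ₐ[K] H, σ * τ = τ * σ := fun σ τ => mul_comm' σ τ
  have hcommF : ∀ σ τ : (Plus c) ≃ₐ[K] (Plus c), σ * τ = τ * σ := fun σ τ => mul_comm' σ τ
  let cg : CommGroup ((Plus c) ≃ₐ[K] (Plus c)) :=
    { (inferInstance : Group ((Plus c) ≃ₐ[K] (Plus c))) with mul_comm := hcommF }
  obtain ⟨s₀, hs₀⟩ := @hGRP ((Plus c) ≃ₐ[K] (Plus c)) cg _ 1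
    (hTWO K (Plus c) 1 (fun x _ g => hre g x) hselK p hpF)
  have hsurj := AlgEquiv.restrictNormalHom_surjective (F := K) (K₁ := Plus c) H
  obtain ⟨σ₀, rfl⟩ := hsurj s₀
  refine ⟨σ₀, fun σ => ?_⟩
  obtain ⟨r, i, j, h1⟩ := hs₀ (AlgEquiv.restrictNormalHom (Plus c) σ)
  obtain ⟨ρ, rfl⟩ := hsurj r
  have h2 : AlgEquiv.restrictNormalHom (Plus c) ((ρ ^ 2 * σ₀ ^ j)⁻¹ * σ) = 1 := by
    rw [map_mul, map_inv, map_mul, map_pow, map_pow, inv_mul_eq_one, h1]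
    have h3 : (1 : (Plus c) ≃ₐ[K] (Plus c)) ^ i = 1 := one_pow i
    change _ = _ * (1 : (Plus c) ≃ₐ[K] (Plus c)) ^ i * _
    rw [h3, mul_one]
  have h4 : (ρ ^ 2 * σ₀ ^ j)⁻¹ * σ ∈ (Plus c).fixingSubgroup := by
    rw [IntermediateField.mem_fixingSubgroup_iff]
    intro x hx
    have h5 := AlgEquiv.restrictNormal_commutes ((ρ ^ 2 * σ₀ ^ j)⁻¹ * σ) (Plus c) ⟨x, hx⟩
    have h6 : ((ρ ^ 2 * σ₀ ^ j)⁻¹ * σ).restrictNormal (Plus c) = 1 := h2
    rw [h6] at h5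
    exact h5.symm
  rw [Plus, IntermediateField.fixingSubgroup_fixedField] at h4
  have hc2 : c ^ 2 = 1 := by
    rw [pow_two]
    exact AlgEquiv.ext fun x => hcc x
  obtain ⟨n, hn⟩ := Subgroup.mem_zpowers_iff.1 h4
  obtain ⟨m, hm⟩ : ∃ m : ℕ, c ^ n = c ^ m := by
    rcases Int.even_or_odd' n with ⟨t, ht | ht⟩
    · exact ⟨0, by rw [ht, zpow_mul, zpow_ofNat, hc2, one_zpow, pow_zero]⟩
    · exact ⟨1, by rw [ht, zpow_add, zpow_mul, zpow_ofNat, hc2, one_zpow, one_mul, zpow_one,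
        pow_one]⟩
  refine ⟨ρ, m, j, ?_⟩
  rw [← hm, hn, mul_assoc, hcomm _ (σ₀ ^ j), ← mul_assoc, mul_inv_cancel_left]

/-- The theorem on one ramified prime, general form. -/
theorem oneprime (hSEL : S_SEL) (hA : S_ABL) (hVAL : S_VAL) (hIND : S_IND)
    (hGRP : S_GRP) (hTWO : S_TWO) [IsAbelianGalois K H]
    (φ₂ : K →+* ℝ) (e : H →+* ℝ) (c : H ≃ₐ[K] H) (hE : Emb K H φ₂ e c) (hc : IsConj φ₂ c)
    (hN : Odd (Nat.card (Pool.Agent.Y682.NCl K))) (k : ℕ) (hk : finrank K H = 2 ^ k)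
    (p : HeightOneSpectrum (𝓞 K))
    (hpF : ∀ P : HeightOneSpectrum (𝓞 (Plus c)), Pool.Agent.TeamU.Over P p ∨ Unr K P)
    (hst : ∀ v : HeightOneSpectrum (𝓞 (Plus c)), Pool.Agent.TeamU.Over v p ∨ Undecomposed K v ∨
      ∀ P : HeightOneSpectrum (𝓞 H), Pool.Agent.TeamU.Over P v → Unr (Plus c) P) :
    ∀ u : H, StarkLike (K := K) φ₂ e u → RootAbelian K u ∧
      ∀ σ : H ≃ₐ[K] H, ∃ a : H, IsUnt a ∧ a ^ 2 * u = σ u := by
  have hselK : Sel K := hSEL K (tReal_base hE hc) hN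
  -- the degree of the real subfield
  have hdvd : finrank K (Plus c) ∣ 2 ^ k := by
    rw [← hk, ← finrank_mul_finrank K (Plus c) H]
    exact dvd_mul_right _ _
  obtain ⟨j, -, hj⟩ := (Nat.dvd_prime_pow Nat.prime_two).1 hdvd
  have hgal : IsGalois K (Plus c) := inferInstance
  obtain ⟨hselF, huniq⟩ := hIND j K (Plus c) hj (tReal_plus hE hc) hselK p hpF
  have hst' : StableRam c := fun v => by
    rcases hst v with hv | hv | hv
    · right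
      refine stable_of_undecomposed hVAL c v fun q w h1 h2 => ?_
      have h3 : q = p := HeightOneSpectrum.ext (h1.symm.trans hv)
      subst h3
      exact huniq w v h2 h1
    · right
      exact stable_of_undecomposed hVAL c v hv
    · exact Or.inl hv
  have hF := fin K (Plus c) H φ₂ e c hE (fix_iff c) hselF hst'
  have hgen := gen_of_plus hGRP hTWO c hE.cc (tReal_plus hE hc) hselK p hpF
  intro u hu
  refine ⟨?_, fun σ => ?_⟩
  · obtain ⟨σ₀, hσ₀⟩ := hgen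
    intro M _ _ _ _ α hα hM
    exact hA K H c σ₀ hσ₀ u hu.1.1 ((hE.norm u hu.1.1).1 hu.2.2)
      (fun σ => by
        obtain ⟨a, -, h1, h2⟩ := hF u hu σ
        exact ⟨a, h1, h2⟩) M α hα hM
  · obtain ⟨a, h1, h2, -⟩ := hF u hu σ
    exact ⟨a, h1, h2⟩

/-- Statement of the final theorem. -/
theorem main2 (hEMB : S_EMB) (hSEL : S_SEL) (hA : S_ABL) (hVAL : S_VAL) (hTOW : S_TOW)
    (hIND : S_IND) (hGRP : S_GRP) (hTWO : S_TWO)
    (K H : Type) [Field K] [NumberField K] [Field H] [NumberField H] [Algebra K H]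
    [IsAbelianGalois K H] (hK : finrank ℚ K = 2) (φ₁ φ₂ : K →+* ℝ) (hφ : φ₁ ≠ φ₂)
    (e : H →+* ℝ) (he : ∀ x, e (algebraMap K H x) = φ₁ x)
    (c : H ≃ₐ[K] H) (hc : IsConj φ₂ c) :
    (Odd (Nat.card (Pool.Agent.Y682.NCl K)) → (∃ k : ℕ, finrank K H = 2 ^ k) →
      ∀ p : HeightOneSpectrum (𝓞 K),
      ((∀ P : HeightOneSpectrum (𝓞 H), Pool.Agent.TeamU.Over P p ∨ Unr K P) ∨
        ((∀ P : HeightOneSpectrum (𝓞 (Plus c)), Pool.Agent.TeamU.Over P p ∨ Unr K P) ∧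
        (∀ v : HeightOneSpectrum (𝓞 (Plus c)), Pool.Agent.TeamU.Over v p ∨ Undecomposed K v ∨
          ∀ P : HeightOneSpectrum (𝓞 H), Pool.Agent.TeamU.Over P v → Unr (Plus c) P))) →
      (∀ u : H, StarkLike (K := K) φ₂ e u → RootAbelian K u ∧
        ∀ σ : H ≃ₐ[K] H, ∃ a : H, IsUnt a ∧ a ^ 2 * u = σ u) ∧
      ∀ (Z : (H ≃ₐ[K] H) → ℝ) (ε : (H ≃ₐ[K] H) → H), StarkUnits φ₂ e Z ε →
        ∀ σ, RootAbelian K (ε σ)) ∧
    (Odd (Nat.card (Pool.Agent.Y682.NCl (Plus c))) → StableRam c →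
      (∀ u : H, StarkLike (K := K) φ₂ e u → ∀ σ : H ≃ₐ[K] H, ∃ a : H, IsUnt a ∧ a ^ 2 * u = σ u) ∧
      ((∃ σ₀ : H ≃ₐ[K] H, ∀ σ : H ≃ₐ[K] H, ∃ (ρ : H ≃ₐ[K] H) (i j : ℕ),
        σ = ρ ^ 2 * c ^ i * σ₀ ^ j) →
      (∀ u : H, StarkLike (K := K) φ₂ e u → RootAbelian K u) ∧
      ∀ (Z : (H ≃ₐ[K] H) → ℝ) (ε : (H ≃ₐ[K] H) → H), StarkUnits φ₂ e Z ε →
        ∀ σ, RootAbelian K (ε σ))) := by
  obtain ⟨ha, _, hb⟩ := hEMB K H hK φ₁ φ₂ hφ e he
  have hEmb : Emb K H φ₂ e c := ⟨ha, (hb c hc).1, (hb c hc).2⟩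
  refine ⟨fun hN ⟨k, hk⟩ p hp => ?_, fun hN hst => ?_⟩
  · have h12 : (∀ P : HeightOneSpectrum (𝓞 (Plus c)), Pool.Agent.TeamU.Over P p ∨ Unr K P) ∧
        (∀ v : HeightOneSpectrum (𝓞 (Plus c)), Pool.Agent.TeamU.Over v p ∨ Undecomposed K v ∨
          ∀ P : HeightOneSpectrum (𝓞 H), Pool.Agent.TeamU.Over P v → Unr (Plus c) P) := by
      rcases hp with hp | hp
      · refine ⟨fun P => ?_, fun v => ?_⟩
        · obtain ⟨Q, hQ⟩ := Pool.Agent.TeamU.b2_exists_over (E := H) P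
          obtain ⟨h1, -, h3⟩ := hTOW K (Plus c) H Q P hQ
          rcases hp Q with h | h
          · exact Or.inl ((h1 p).1 h)
          · exact Or.inr (h3 h)
        · by_cases hv : Pool.Agent.TeamU.Over v p
          · exact Or.inl hv
          · refine Or.inr (Or.inr fun P hP => ?_)
            obtain ⟨h1, h2, -⟩ := hTOW K (Plus c) H P v hP
            rcases hp P with h | h
            · exact absurd ((h1 p).1 h) hv
            · exact h2 h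
      · exact hp
    have h := oneprime hSEL hA hVAL hIND hGRP hTWO φ₂ e c hEmb hc hN k hk p h12.1 h12.2
    exact ⟨h, fun Z ε hε σ => (h _ (hε.starkLike σ)).1⟩
  · have h := general hSEL hA φ₂ e c hEmb hc hN hst
    exact ⟨h.1, fun h' => ⟨h.2 h', fun Z ε hε σ => h.2 h' _ (hε.starkLike σ)⟩⟩

end Pool.Agent.L7h62.SQ
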