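import Pool.Agent.L7h62.SQ.Main4

/-!
# Project SQ: the final statement
-/

set_option autoImplicit false

namespace Pool.Agent.L7h62.SQ

open Module NumberField IsDedekindDomain
open Pool.Agent.TeamU (Unr)

/-- The 2-part of `G/⟨c⟩` is cyclic: every element of `G` is a square times a power of `c` times
a power of a fixed element `σ₀`. -/
def CyclicMod {K H : Type} [Field K] [Field H] [Algebra K H] (c : H ≃ₐ[K] H) : Prop :=
  ∃ σ₀ : H ≃ₐ[K] H, ∀ σ : H ≃ₐ[K] H, ∃ (ρ : H ≃ₐ[K] H) (i j : ℕ), σ = ρ ^ 2 * c ^ i * σ₀ ^ j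

/-- At most the prime `p` of `K` is ramified in `H`; or only `p` is ramified in the real subfield
`H⁺` (the fixed field of `c`) and every prime `v` of `H⁺` which is ramified in `H` is the only prime of
`H⁺` above its restriction to `K`. -/
def OnePrime {K H : Type} [Field K] [NumberField K] [Field H] [NumberField H] [Algebra K H]
    (c : H ≃ₐ[K] H) (p : HeightOneSpectrum (𝓞 K)) : Prop :=
  (∀ P : HeightOneSpectrum (𝓞 H), Pool.Agent.TeamU.Over P p ∨ Unr K P) ∨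
  ((∀ P : HeightOneSpectrum (𝓞 (Plus c)), Pool.Agent.TeamU.Over P p ∨ Unr K P) ∧
    (∀ v : HeightOneSpectrum (𝓞 (Plus c)), Pool.Agent.TeamU.Over v p ∨ Undecomposed K v ∨
      ∀ P : HeightOneSpectrum (𝓞 H), Pool.Agent.TeamU.Over P v → Unr (Plus c) P))

theorem main3 (hL : S_LAT) (hI : S_IDX) (hG : S_GRI)
    (hEMB : S_EMB) (hSEL : S_SEL) (hA : S_ABL) (hVAL : S_VAL) (hTOW : S_TOW)
    (hIND : S_IND) (hGRP : S_GRP) (hTWO : S_TWO)
    (K H : Type) [Field K] [NumberField K] [Field H] [NumberField H] [Algebra K H]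
    [IsAbelianGalois K H] (hK : finrank ℚ K = 2) (φ₁ φ₂ : K →+* ℝ) (hφ : φ₁ ≠ φ₂)
    (e : H →+* ℝ) (he : ∀ x, e (algebraMap K H x) = φ₁ x)
    (c : H ≃ₐ[K] H) (hc : IsConj φ₂ c)
    (h : (Odd (Nat.card (Pool.Agent.Y682.NCl K)) ∧ (∃ k : ℕ, finrank K H = 2 ^ k) ∧
        ∃ p : HeightOneSpectrum (𝓞 K), OnePrime c p) ∨
      (CyclicMod c ∧ Odd (Nat.card (Pool.Agent.Y682.NCl (Plus c))) ∧ StableRam c) ∨
      (CyclicMod c ∧ SignCondition φ₁ e c)) :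
    (∀ u : H, StarkLike (K := K) φ₂ e u → RootAbelian K u ∧
      ∀ σ : H ≃ₐ[K] H, ∃ a : H, IsUnt a ∧ a ^ 2 * u = σ u) ∧
    ∀ (Z : (H ≃ₐ[K] H) → ℝ) (ε : (H ≃ₐ[K] H) → H), StarkUnits φ₂ e Z ε →
      ∀ σ, RootAbelian K (ε σ) := by
  rcases h with ⟨hN, hk, p, hp⟩ | ⟨hcy, hN, hst⟩ | ⟨hcy, hS⟩
  · exact (main2 hEMB hSEL hA hVAL hTOW hIND hGRP hTWO K H hK φ₁ φ₂ hφ e he c hc).1 hN hk p hp
  · have h1 := (main2 hEMB hSEL hA hVAL hTOW hIND hGRP hTWO K H hK φ₁ φ₂ hφ e he c hc).2 hN hst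
    exact ⟨fun u hu => ⟨(h1.2 hcy).1 u hu, h1.1 u hu⟩, (h1.2 hcy).2⟩
  · have h1 := main hL hI hG hEMB hA K H hK φ₁ φ₂ hφ e he c hc hS
    exact ⟨fun u hu => ⟨(h1.2.2 hcy).1 u hu, h1.2.1 u hu⟩, (h1.2.2 hcy).2⟩

end Pool.Agent.L7h62.SQ
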