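import Pool.Agent.L7h62.SQ.Cyc3

/-!
# Project SQ: the final statement with the index formula
-/

set_option autoImplicit false

namespace Pool.Agent.L7h62.SQ

open Module NumberField IsDedekindDomain
open Pool.Agent.TeamU (Unr)

theorem conj_map {K H : Type} [Field K] [Field H] [Algebra K H] (u : H) (τ : H ≃ₐ[K] H) :
    Conj K (τ u) = Conj K u := by
  unfold Conj
  congr 2
  ext y
  constructor
  · rintro ⟨σ, hσ⟩
    exact ⟨σ * τ, hσ⟩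
  · rintro ⟨σ, hσ⟩
    exact ⟨σ * τ⁻¹, by
      rw [hσ, AlgEquiv.mul_apply]
      congr 1
      exact (τ.symm_apply_apply u).symm⟩

/-- One of the conditions (i), (ii), (iii). -/
def Cases {K H : Type} [Field K] [NumberField K] [Field H] [NumberField H] [Algebra K H]
    (φ₁ : K →+* ℝ) (e : H →+* ℝ) (c : H ≃ₐ[K] H) : Prop :=
  (Odd (Nat.card (Pool.Agent.Y682.NCl K)) ∧ (∃ k : ℕ, finrank K H = 2 ^ k) ∧
    ∃ p : HeightOneSpectrum (𝓞 K), OnePrime c p) ∨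
  (CyclicMod c ∧ Odd (Nat.card (Pool.Agent.Y682.NCl (Plus c))) ∧ StableRam c) ∨
  (CyclicMod c ∧ SignCondition φ₁ e c)

/-- Condition (iv) for the unit `u`: the Galois group is cyclic of order `2 ^ (k + 1)`, `c ≠ 1`, and the
index formula holds for `u`. -/
def CyclicIndex {K H : Type} [Field K] [NumberField K] [Field H] [NumberField H] [Algebra K H]
    (c : H ≃ₐ[K] H) (u : H) : Prop :=
  c ≠ 1 ∧ ∃ k : ℕ, finrank K H = 2 ^ (k + 1) ∧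
    (∃ σ : H ≃ₐ[K] H, ∀ τ : H ≃ₐ[K] H, ∃ i : ℕ, τ = σ ^ i) ∧ IndexFormula c k u

theorem CyclicIndex.map {K H : Type} [Field K] [NumberField K] [Field H] [NumberField H]
    [Algebra K H] {c : H ≃ₐ[K] H} {u : H} (h : CyclicIndex c u) (τ : H ≃ₐ[K] H) :
    CyclicIndex c (τ u) := by
  obtain ⟨h1, k, h2, h3, hm, E, h4, h5, h6⟩ := h
  refine ⟨h1, k, h2, h3, hm, E, h4, ?_, h6⟩
  rw [unitIndex, conj_map]
  exact h5

theorem main6 (hL : S_LAT) (hI : S_IDX) (hG : S_GRI)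
    (hEMB : S_EMB) (hSEL : S_SEL) (hA : S_ABL) (hVAL : S_VAL) (hTOW : S_TOW)
    (hIND : S_IND) (hGRP : S_GRP) (hTWO : S_TWO) (hMOD : S_MOD) (hGEN : S_GEN)
    (K H : Type) [Field K] [NumberField K] [Field H] [NumberField H] [Algebra K H]
    [IsAbelianGalois K H] (hK : finrank ℚ K = 2) (φ₁ φ₂ : K →+* ℝ) (hφ : φ₁ ≠ φ₂)
    (e : H →+* ℝ) (he : ∀ x, e (algebraMap K H x) = φ₁ x)
    (c : H ≃ₐ[K] H) (hc : IsConj φ₂ c) :
    (∀ u : H, StarkLike (K := K) φ₂ e u → (Cases φ₁ e c ∨ CyclicIndex c u) → RootAbelian K u ∧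
      ∀ σ : H ≃ₐ[K] H, ∃ a : H, IsUnt a ∧ a ^ 2 * u = σ u) ∧
    ∀ (Z : (H ≃ₐ[K] H) → ℝ) (ε : (H ≃ₐ[K] H) → H), StarkUnits φ₂ e Z ε →
      (Cases φ₁ e c ∨ CyclicIndex c (ε 1)) → ∀ σ, RootAbelian K (ε σ) := by
  have h1 : ∀ u : H, StarkLike (K := K) φ₂ e u → (Cases φ₁ e c ∨ CyclicIndex c u) →
      RootAbelian K u ∧ ∀ σ : H ≃ₐ[K] H, ∃ a : H, IsUnt a ∧ a ^ 2 * u = σ u := by
    intro u hu h
    rcases h with h | ⟨h1, k, h2, ⟨σ, hσ⟩, h4⟩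
    · exact (main3 hL hI hG hEMB hSEL hA hVAL hTOW hIND hGRP hTWO K H hK φ₁ φ₂ hφ e he c hc h).1 u hu
    · obtain ⟨ha, _, hb⟩ := hEMB K H hK φ₁ φ₂ hφ e he
      have hEmb : Emb K H φ₂ e c := ⟨ha, (hb c hc).1, (hb c hc).2⟩
      exact cyc_all hL hMOD hA φ₂ e c hEmb h1 σ hσ k h2 u hu
        (div_of_formula hGEN c hEmb.cc h1 k u h4)
  refine ⟨h1, fun Z ε hε h σ => (h1 _ (hε.starkLike σ) ?_).1⟩
  rcases h with h | h
  · exact Or.inl h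
  · right
    have h2 := h.map σ
    rw [hε.galois, mul_one] at h2
    exact h2

end Pool.Agent.L7h62.SQ
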