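import Pool.Agent.L7h62.SQ.Stm2

/-!
# Project SQ: TOW
-/

set_option autoImplicit false

namespace Pool.Agent.L7h62.SQ

open Module NumberField IsDedekindDomain
open Pool.Agent.TeamU (Over Unr)

theorem s_TOW (h : S_VAL) : S_TOW := by
  intro K F L _ _ _ _ _ _ _ _ _ _ P v hv
  have key : Unr K P → ∃ a : K, P.valuation L (algebraMap K L a) = WithZero.exp (-1 : ℤ) :=
    fun hU => ((h K L).2 P).1 hU
  refine ⟨fun p => ?_, fun hU => ?_, fun hU => ?_⟩
  · have h1 : P.asIdeal.comap (algebraMap (𝓞 K) (𝓞 L)) = v.asIdeal.comap (algebraMap (𝓞 K) (𝓞 F)) := by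
      rw [← hv, Ideal.comap_comap]
      congr 1
      ext x
      show algebraMap K L (x : K) = algebraMap F L (algebraMap K F (x : K))
      exact IsScalarTower.algebraMap_apply K F L (x : K)
    show P.asIdeal.comap _ = p.asIdeal ↔ v.asIdeal.comap _ = p.asIdeal
    rw [h1]
  · obtain ⟨a, ha⟩ := key hU
    refine ((h F L).2 P).2 ⟨algebraMap K F a, ?_⟩
    rw [← IsScalarTower.algebraMap_apply]
    exact ha
  · obtain ⟨a, ha⟩ := key hU
    obtain ⟨⟨e, he, hval⟩, -⟩ := (h F L).1 P v hv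
    refine ((h K F).2 v).2 ⟨a, ?_⟩
    have h1 := hval (algebraMap K F a)
    rw [← IsScalarTower.algebraMap_apply, ha] at h1
    have ha0 : algebraMap K F a ≠ 0 := fun h0 => by
      rw [h0, map_zero, zero_pow (by omega)] at h1
      exact absurd h1 (by simp)
    have h0 : v.valuation F (algebraMap K F a) ≠ 0 := (Valuation.ne_zero_iff _).2 ha0
    rw [← WithZero.exp_log h0] at h1 ⊢
    rw [← WithZero.exp_nsmul, WithZero.exp_inj] at h1
    rw [WithZero.exp_inj]
    have h2 : (e : ℤ) * WithZero.log (v.valuation F (algebraMap K F a)) = -1 := by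
      rw [h1]
      simp
    have h3 : (e : ℤ) ∣ 1 := by
      have : (e : ℤ) ∣ -1 := ⟨_, h2.symm⟩
      exact (dvd_neg.1 this)
    have h4 : (e : ℤ) = 1 := Int.eq_one_of_dvd_one (by positivity) h3
    rw [h4, one_mul] at h2
    exact h2

end Pool.Agent.L7h62.SQ
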